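import Pool.Agent.Helper89.BX.Fin

/-! # `F` is not in the Bloch space -/

set_option autoImplicit false

namespace Pool.Agent.Helper89.BX

open Metric Set Filter Topology MeasureTheory Complex
open scoped ComplexConjugate

lemma F_large_real {m : ℕ} {r : ℝ} (h0 : 0 ≤ r) (h1 : 1 - r = Real.exp (-(m : ℝ) ^ 6)) :
    (m : ℝ) ^ 7 ≤ ‖F (r : ℂ)‖ := by
  have hr : 0 < 1 - r := by rw [h1]; exact Real.exp_pos _
  have hmem : (r : ℂ) ∈ DD := by
    rw [mem_ball_zero_iff, norm_real, Real.norm_of_nonneg h0]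
    linarith
  have hd := dom_of hmem
  refine le_trans ?_ hd.F_ge
  have h3 : (m : ℝ) ^ 6 ≤ ‖V (r : ℂ)‖ ^ 6 := by
    rw [hd.N6]
    refine le_trans ?_ hd.S_norm
    unfold X
    have h4 : ‖1 - (r : ℂ)‖ = Real.exp (-(m : ℝ) ^ 6) := by
      rw [← h1, ← ofReal_one, ← ofReal_sub, norm_real, Real.norm_of_nonneg hr.le]
    rw [h4, Real.log_exp]
    linarith
  have h4 : (m : ℝ) ≤ ‖V (r : ℂ)‖ :=
    (pow_le_pow_iff_left₀ (Nat.cast_nonneg m) (norm_nonneg _) (by norm_num)).1 h3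
  exact pow_le_pow_left₀ (Nat.cast_nonneg m) h4 7

/-- `c F` is not in the Bloch space -/
theorem not_bloch {c : ℝ} (hc : 0 < c) {B : ℝ}
    (hB : ∀ z ∈ DD, (1 - ‖z‖ ^ 2) * ‖deriv (fun w => (c : ℂ) * F w) z‖ ≤ B) : False := by
  obtain ⟨G, hG⟩ : ∃ G : ℂ → ℂ, G = fun z => (c : ℂ) * F z := ⟨_, rfl⟩
  rw [← hG] at hB
  have hGd : ∀ z ∈ DD, DifferentiableAt ℂ G z := fun z hz => by
    rw [hG]
    exact (dom_of hz).F_diff.const_mul _
  have hB0 : 0 ≤ B := by
    refine le_trans ?_ (hB 0 (mem_ball_self one_pos))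
    rw [norm_zero]
    have := norm_nonneg (deriv G 0)
    nlinarith
  have key : ∀ r : ℝ, 0 ≤ r → r < 1 → ‖G (r : ℂ)‖ ≤ ‖G 0‖ - B * Real.log (1 - r) := by
    intro r h0 h1
    have hmem : ∀ t : ℝ, 0 ≤ t → t ≤ r → (t : ℂ) ∈ DD := by
      intro t ht0 htr
      rw [mem_ball_zero_iff, norm_real, Real.norm_of_nonneg ht0]
      linarith
    have hder : ∀ t : ℝ, 0 ≤ t → t ≤ r →
        HasDerivAt (fun t : ℝ => G (t : ℂ)) (deriv G (t : ℂ)) t := by
      intro t ht0 htr
      exact (hGd t (hmem t ht0 htr)).hasDerivAt.comp_ofReal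
    have hBder : ∀ t : ℝ, 0 ≤ t → t ≤ r →
        HasDerivAt (fun t : ℝ => ‖G 0‖ - B * Real.log (1 - t)) (B / (1 - t)) t := by
      intro t ht0 htr
      have h3 : (1 : ℝ) - t ≠ 0 := by
        have : t < 1 := by linarith
        intro h
        linarith
      have h4 : HasDerivAt (fun t : ℝ => Real.log (1 - t)) (-1 / (1 - t)) t := by
        have h5 : HasDerivAt (fun t : ℝ => 1 - t) (-1) t := by
          simpa using (hasDerivAt_id t).const_sub 1
        exact h5.log h3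
      have h5 := (h4.const_mul B).const_sub ‖G 0‖
      have h6 : -(B * (-1 / (1 - t))) = B / (1 - t) := by ring
      rwa [h6] at h5
    have h2 := image_norm_le_of_norm_deriv_right_le_deriv_boundary' (f := fun t : ℝ => G (t : ℂ))
      (f' := fun t : ℝ => deriv G (t : ℂ)) (a := 0) (b := r)
      (B := fun t => ‖G 0‖ - B * Real.log (1 - t)) (B' := fun t => B / (1 - t))
      (fun t ht => (hder t ht.1 ht.2).continuousAt.continuousWithinAt)
      (fun t ht => (hder t ht.1 ht.2.le).hasDerivWithinAt)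
      (by simp)
      (fun t ht => (hBder t ht.1 ht.2).continuousAt.continuousWithinAt)
      (fun t ht => (hBder t ht.1 ht.2.le).hasDerivWithinAt)
      (by
        intro t ht
        have h3 := hB t (hmem t ht.1 ht.2.le)
        rw [norm_real, Real.norm_of_nonneg ht.1] at h3
        have h4 : 0 < 1 - t := by
          have := ht.2
          linarith
        rw [le_div_iff₀ h4]
        refine le_trans ?_ h3
        have h5 := norm_nonneg (deriv G (t : ℂ))
        have h6 := ht.1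
        have h7 : (1 - t) ≤ 1 - t ^ 2 := by nlinarith
        nlinarith)
    exact h2 ⟨h0, le_rfl⟩
  obtain ⟨m, hm⟩ := exists_nat_gt ((‖G 0‖ + B) / c)
  have hA : 0 ≤ ‖G 0‖ + B := by
    have := norm_nonneg (G 0)
    linarith
  have hm0 : (0 : ℝ) < m := lt_of_le_of_lt (by positivity) hm
  have hm1 : 1 ≤ m := by
    have : 0 < m := by exact_mod_cast hm0
    omega
  have hm1' : (1 : ℝ) ≤ m := by exact_mod_cast hm1
  rw [div_lt_iff₀ hc] at hm
  have h6 : (1 : ℝ) ≤ (m : ℝ) ^ 6 := one_le_pow₀ hm1'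
  obtain ⟨r, hr⟩ : ∃ r : ℝ, r = 1 - Real.exp (-(m : ℝ) ^ 6) := ⟨_, rfl⟩
  have hr1 : 1 - r = Real.exp (-(m : ℝ) ^ 6) := by rw [hr]; ring
  have hr0 : 0 ≤ r := by
    rw [hr]
    have : Real.exp (-(m : ℝ) ^ 6) ≤ 1 := Real.exp_le_one_iff.2 (by linarith)
    linarith
  have hrlt : r < 1 := by
    have := Real.exp_pos (-(m : ℝ) ^ 6)
    linarith
  have h7 := key r hr0 hrlt
  rw [hr1, Real.log_exp] at h7
  have h8 := F_large_real hr0 hr1
  have h9 : c * (m : ℝ) ^ 7 ≤ ‖G (r : ℂ)‖ := by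
    rw [hG]
    simp only [norm_mul, norm_real, Real.norm_of_nonneg hc.le]
    exact mul_le_mul_of_nonneg_left h8 hc.le
  have h10 : ‖G 0‖ * 1 ≤ ‖G 0‖ * (m : ℝ) ^ 6 := mul_le_mul_of_nonneg_left h6 (norm_nonneg _)
  have h11 : (‖G 0‖ + B) * (m : ℝ) ^ 6 < (m * c) * (m : ℝ) ^ 6 :=
    mul_lt_mul_of_pos_right hm (by positivity)
  nlinarith

/-- a bounded analytic function is in every Bergman space -/
lemma bounded_int {k : ℂ → ℂ} (hk : DifferentiableOn ℂ k DD) {C : ℝ} (hC : ∀ z ∈ DD, ‖k z‖ ≤ C)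
    {q : ℝ} (hq : 0 < q) : IntegrableOn (fun z => ‖k z‖ ^ q) DD := by
  have := finDD
  have hcont : ContinuousOn (fun z => ‖k z‖ ^ q) DD :=
    hk.continuousOn.norm.rpow_const fun _ _ => Or.inr hq.le
  refine Integrable.mono' (integrable_const (C ^ q)) (hcont.aestronglyMeasurable measurableSet_ball) ?_
  rw [ae_restrict_iff' measurableSet_ball]
  refine ae_of_all _ fun z hz => ?_
  rw [Real.norm_of_nonneg (by positivity)]
  exact Real.rpow_le_rpow (norm_nonneg _) (hC z hz) hq.le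

end Pool.Agent.Helper89.BX
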