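import Pool.Agent.Helper89.BX.Orth

/-! # The kernel and the extremality -/

set_option autoImplicit false

namespace Pool.Agent.Helper89.BX

open Metric Set Filter Topology MeasureTheory Complex
open scoped ComplexConjugate

section

variable {L H K J : ℂ → ℂ} {A B : ℝ}

/-- the kernel -/
noncomputable def kk (L H K J : ℂ → ℂ) (z : ℂ) : ℂ :=
  K z + J 0 + (Real.pi : ℂ)⁻¹ * PP (RR L H K J) z

lemma Dat.RRb (h : Dat L H K J A B) : ∀ w ∈ DD, ‖RR L H K J w‖ ≤ 16 * A * B := by
  intro w hw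
  refine (h.RR_le hw).trans ?_
  have := om_le_one (one_sub_pos hw) (one_sub_lt hw).le
  have hAB : 0 ≤ A * B := mul_nonneg h.A0 h.B0
  nlinarith

lemma Dat.kk_diff (h : Dat L H K J A B) {z : ℂ} (hz : z ∈ DD) :
    DifferentiableAt ℂ (kk L H K J) z := by
  unfold kk
  exact ((h.dK z hz).differentiableAt.add_const _).add
    ((PP_diff h.RR_cont h.RRb hz).const_mul _)

lemma Dat.kk_le (h : Dat L H K J A B) {M : ℝ} (hK : ∀ z ∈ DD, ‖K z‖ ≤ M) {z : ℂ} (hz : z ∈ DD) :
    ‖kk L H K J z‖ ≤ M + ‖J 0‖ + 2016 * A * B := by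
  unfold kk
  have h1 := h.PP_le hz
  have hpi := Real.pi_pos
  have h2 : ‖(Real.pi : ℂ)⁻¹ * PP (RR L H K J) z‖ ≤ 2016 * A * B := by
    rw [norm_mul, norm_inv, Complex.norm_real, Real.norm_of_nonneg hpi.le]
    calc Real.pi⁻¹ * ‖PP (RR L H K J) z‖ ≤ Real.pi⁻¹ * (2016 * Real.pi * A * B) := by gcongr
      _ = _ := by field_simp
  refine (norm_add_le _ _).trans (add_le_add ((norm_add_le _ _).trans ?_) h2)
  gcongr
  exact hK z hz

lemma Dat.ortho (h : Dat L H K J A B) {M : ℝ} (hK : ∀ z ∈ DD, ‖K z‖ ≤ M) {f : ℂ → ℂ}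
    (hf : DifferentiableOn ℂ f DD) (hfp : IntegrableOn (fun z => ‖f z‖ ^ (8 / 7 : ℝ)) DD)
    (hG : IntegrableOn (fun z => ‖L (conj z) * H z‖ ^ (8 : ℝ)) DD) :
    ∫ z in DD, f z * conj (L (conj z) * H z) = ∫ z in DD, f z * conj (kk L H K J z) := by
  have hfin := finDD
  have hfc := hf.continuousOn
  have hfi := f_int hfc hfp
  have h1 : ContinuousOn (fun z => conj z) DD := Complex.continuous_conj.continuousOn
  have hm : MapsTo (fun z => conj z) DD DD := fun z hz => conj_mem hz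
  have hLc : ContinuousOn L DD := fun z hz => (h.dL z hz).continuousAt.continuousWithinAt
  have hHc : ContinuousOn H DD := fun z hz => (h.dH z hz).continuousAt.continuousWithinAt
  have hKc : ContinuousOn K DD := fun z hz => (h.dK z hz).continuousAt.continuousWithinAt
  have hGc : ContinuousOn (fun z => L (conj z) * H z) DD := (hLc.comp h1 hm).mul hHc
  -- products with bounded functions
  have hbdd : ∀ (g : ℂ → ℂ), ContinuousOn g DD → ∀ C : ℝ, (∀ z ∈ DD, ‖g z‖ ≤ C) →
      IntegrableOn (fun z => f z * conj (g z)) DD := by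
    intro g hg C hC
    have h2 : AEStronglyMeasurable (fun z => conj (g z)) (volume.restrict DD) :=
      (Complex.continuous_conj.comp_continuousOn hg).aestronglyMeasurable measurableSet_ball
    refine Integrable.mono' (hfi.norm.mul_const C) (hfi.aestronglyMeasurable.mul h2) ?_
    rw [ae_restrict_iff' measurableSet_ball]
    refine ae_of_all _ fun z hz => ?_
    rw [norm_mul, Complex.norm_conj]
    gcongr
    exact hC z hz
  have iK := hbdd K hKc M hK
  have iR := hbdd _ h.RR_cont _ h.RRb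
  have iP := hbdd (PP (RR L H K J)) (fun z hz => (PP_diff h.RR_cont h.RRb hz).continuousAt.continuousWithinAt)
    _ (fun z hz => h.PP_le hz)
  have iJ0 := hbdd (fun _ => J 0) continuousOn_const _ (fun _ _ => le_rfl)
  have iG : IntegrableOn (fun z => f z * conj (L (conj z) * H z)) DD := by
    refine young_int hfc (Complex.continuous_conj.comp_continuousOn hGc) hfp ?_
    refine hG.congr (ae_of_all _ fun z => ?_)
    simp only [Complex.norm_conj]
  have iJ : IntegrableOn (fun z => f z * conj (J (conj z))) DD := by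
    refine ((iG.sub iK).sub iR).congr (ae_of_all _ fun z => ?_)
    simp only [Pi.sub_apply, RR, map_sub, map_mul]
    ring
  have eJ : ∫ z in DD, f z * conj (J (conj z)) = ∫ z in DD, f z * conj (J 0) := by
    have d1 : DifferentiableOn ℂ (fun z => f z * conj (J (conj z))) DD := by
      refine hf.mul fun z hz => ?_
      have h2 := ((h.dJ _ (conj_mem hz)).differentiableAt).conj_conj
      rw [Complex.conj_conj] at h2
      exact h2.differentiableWithinAt
    have d2 : DifferentiableOn ℂ (fun z => f z * conj (J 0)) DD := hf.mul_const _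
    have r1 := Pool.Agent.X105.BE.repro d1 iJ (a := 0) (by simp)
    have r2 := Pool.Agent.X105.BE.repro d2 iJ0 (a := 0) (by simp)
    simp only [zero_mul, sub_zero, one_pow, div_one, map_zero] at r1 r2
    rw [r1, r2]
  have eR := PP_sym h.RR_cont h.RRb hf hfp
  have e1 : ∫ z in DD, f z * conj (L (conj z) * H z) = (∫ z in DD, f z * conj (K z)) +
      (∫ z in DD, f z * conj (J (conj z))) + ∫ z in DD, f z * conj (RR L H K J z) := by
    have iKJ : IntegrableOn (fun z => f z * conj (K z) + f z * conj (J (conj z))) DD := iK.add iJ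
    rw [← integral_add iK iJ, ← integral_add iKJ iR]
    congr 1
    ext z
    simp only [RR, map_sub, map_mul]
    ring
  have iP' : IntegrableOn (fun z => (Real.pi : ℂ)⁻¹ * (f z * conj (PP (RR L H K J) z))) DD :=
    iP.const_mul _
  have e2 : ∫ z in DD, f z * conj (kk L H K J z) = (∫ z in DD, f z * conj (K z)) +
      (∫ z in DD, f z * conj (J 0)) +
      ∫ z in DD, (Real.pi : ℂ)⁻¹ * (f z * conj (PP (RR L H K J) z)) := by
    have iKJ : IntegrableOn (fun z => f z * conj (K z) + f z * conj (J 0)) DD := iK.add iJ0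
    rw [← integral_add iK iJ0, ← integral_add iKJ iP']
    congr 1
    ext z
    simp only [kk, map_add, map_mul, map_inv₀, Complex.conj_ofReal]
    ring
  have hpi : (Real.pi : ℂ) ≠ 0 := by
    exact_mod_cast Real.pi_ne_zero
  rw [e1, e2, eJ, integral_const_mul, eR, inv_mul_cancel_left₀ hpi]

/-- extremality -/
theorem Dat.extremal (h : Dat L H K J A B) {M : ℝ} (hK : ∀ z ∈ DD, ‖K z‖ ≤ M) {F : ℂ → ℂ}
    (hF : DifferentiableOn ℂ F DD) (hFp : IntegrableOn (fun z => ‖F z‖ ^ (8 / 7 : ℝ)) DD)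
    (hF0 : 0 < ∫ z in DD, ‖F z‖ ^ (8 / 7 : ℝ))
    (hFG : ∀ z ∈ DD, F z * conj (L (conj z) * H z) = ((‖F z‖ ^ (8 / 7 : ℝ) : ℝ) : ℂ))
    (hGn : ∀ z ∈ DD, ‖L (conj z) * H z‖ ^ (8 : ℝ) = ‖F z‖ ^ (8 / 7 : ℝ)) :
    ∃ (k : ℂ → ℂ) (c : ℝ), 0 < c ∧ DifferentiableOn ℂ k DD ∧ (∃ C : ℝ, ∀ z ∈ DD, ‖k z‖ ≤ C) ∧
      (∃ z ∈ DD, k z ≠ 0) ∧
      IntegrableOn (fun z => ‖(c : ℂ) * F z‖ ^ (8 / 7 : ℝ)) DD ∧
      ∫ z in DD, ‖(c : ℂ) * F z‖ ^ (8 / 7 : ℝ) = 1 ∧
      ∀ f : ℂ → ℂ, DifferentiableOn ℂ f DD → IntegrableOn (fun z => ‖f z‖ ^ (8 / 7 : ℝ)) DD →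
        ∫ z in DD, ‖f z‖ ^ (8 / 7 : ℝ) = 1 →
        (∫ z in DD, f z * conj (k z)).re ≤ (∫ z in DD, (c : ℂ) * F z * conj (k z)).re := by
  obtain ⟨N, hN⟩ : ∃ N, N = ∫ z in DD, ‖F z‖ ^ (8 / 7 : ℝ) := ⟨_, rfl⟩
  rw [← hN] at hF0
  have hGp : IntegrableOn (fun z => ‖L (conj z) * H z‖ ^ (8 : ℝ)) DD := by
    refine hFp.congr ?_
    rw [EventuallyEq, ae_restrict_iff' measurableSet_ball]
    exact ae_of_all _ fun z hz => (hGn z hz).symm
  have hGN : ∫ z in DD, ‖L (conj z) * H z‖ ^ (8 : ℝ) = N := by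
    rw [hN]
    exact setIntegral_congr_fun measurableSet_ball fun z hz => hGn z hz
  obtain ⟨c, hc⟩ : ∃ c : ℝ, c = N ^ (-(7 / 8) : ℝ) := ⟨_, rfl⟩
  have hc0 : 0 < c := by rw [hc]; positivity
  have hcN : c ^ (8 / 7 : ℝ) * N = 1 := by
    rw [hc, ← Real.rpow_mul hF0.le]
    norm_num
    rw [Real.rpow_neg_one]
    exact inv_mul_cancel₀ hF0.ne'
  have hcF : ∀ z, ‖(c : ℂ) * F z‖ ^ (8 / 7 : ℝ) = c ^ (8 / 7 : ℝ) * ‖F z‖ ^ (8 / 7 : ℝ) := by
    intro z
    rw [norm_mul, Complex.norm_real, Real.norm_of_nonneg hc0.le, Real.mul_rpow hc0.le (norm_nonneg _)]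
  have hiF : IntegrableOn (fun z => ‖(c : ℂ) * F z‖ ^ (8 / 7 : ℝ)) DD := by
    simp only [hcF]
    exact hFp.const_mul _
  have hval : ∫ z in DD, (c : ℂ) * F z * conj (kk L H K J z) = ((c * N : ℝ) : ℂ) := by
    rw [← h.ortho hK (hF.const_mul _) hiF hGp]
    have h1 : ∫ z in DD, (c : ℂ) * F z * conj (L (conj z) * H z) =
        ∫ z in DD, ((c * ‖F z‖ ^ (8 / 7 : ℝ) : ℝ) : ℂ) := by
      refine setIntegral_congr_fun measurableSet_ball fun z hz => ?_
      rw [mul_assoc, hFG z hz]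
      push_cast
      ring
    rw [h1, integral_complex_ofReal, integral_const_mul, ← hN]
  refine ⟨kk L H K J, c, hc0, fun z hz => (h.kk_diff hz).differentiableWithinAt,
    ⟨_, fun z hz => h.kk_le hK hz⟩, ?_, hiF, ?_, ?_⟩
  · by_contra hcon
    push Not at hcon
    have h1 : ∫ z in DD, (c : ℂ) * F z * conj (kk L H K J z) = 0 := by
      have : ∫ z in DD, (c : ℂ) * F z * conj (kk L H K J z) = ∫ z in DD, (0 : ℂ) := by
        refine setIntegral_congr_fun measurableSet_ball fun z hz => ?_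
        rw [hcon z hz, map_zero, mul_zero]
      rw [this]
      simp
    rw [hval] at h1
    have h2 : c * N = 0 := by exact_mod_cast h1
    have h3 : 0 < c * N := by positivity
    linarith
  · simp only [hcF]
    rw [integral_const_mul, ← hN, hcN]
  · intro f hf hfp hf1
    rw [hval, ← h.ortho hK hf hfp hGp, Complex.ofReal_re]
    have hLc : ContinuousOn L DD := fun z hz => (h.dL z hz).continuousAt.continuousWithinAt
    have hHc : ContinuousOn H DD := fun z hz => (h.dH z hz).continuousAt.continuousWithinAt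
    have hGc : ContinuousOn (fun z => L (conj z) * H z) DD :=
      (hLc.comp Complex.continuous_conj.continuousOn fun z hz => conj_mem hz).mul hHc
    have m1 : MemLp f (ENNReal.ofReal (8 / 7)) (volume.restrict DD) := by
      rw [← integrable_norm_rpow_iff (hf.continuousOn.aestronglyMeasurable measurableSet_ball)
        (by simp) (by simp), ENNReal.toReal_ofReal (by norm_num)]
      exact hfp
    have m2 : MemLp (fun z => L (conj z) * H z) (ENNReal.ofReal 8) (volume.restrict DD) := by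
      rw [← integrable_norm_rpow_iff (hGc.aestronglyMeasurable measurableSet_ball)
        (by simp) (by simp), ENNReal.toReal_ofReal (by norm_num)]
      exact hGp
    have hhol := integral_mul_norm_le_Lp_mul_Lq (μ := volume.restrict DD) (f := f)
      (g := fun z => L (conj z) * H z) (p := 8 / 7) (q := 8)
      (Real.holderConjugate_iff.2 ⟨by norm_num, by norm_num⟩) m1 m2
    rw [hf1, hGN, Real.one_rpow, one_mul] at hhol
    have h2 : (∫ z in DD, f z * conj (L (conj z) * H z)).re ≤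
        ∫ z in DD, ‖f z‖ * ‖L (conj z) * H z‖ := by
      refine (Complex.re_le_norm _).trans ((norm_integral_le_integral_norm _).trans (le_of_eq ?_))
      congr 1
      ext z
      rw [norm_mul, Complex.norm_conj]
    refine (h2.trans hhol).trans (le_of_eq ?_)
    rw [hc]
    nth_rewrite 3 [← Real.rpow_one N]
    rw [← Real.rpow_add hF0]
    norm_num

end

end Pool.Agent.Helper89.BX
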