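import Pool.Agent.Helper89.BX.Fz

/-! # Integrability of `F`, and `F` is not in `BMOA` -/

set_option autoImplicit false

namespace Pool.Agent.Helper89.BX

open Metric Set Filter Topology MeasureTheory Complex
open scoped ComplexConjugate

lemma Dom.F_norm {z : ℂ} (_ : Dom z) : ‖F z‖ = ‖y (V z)‖ ^ 7 * Real.exp (-(be (V z)).im) := by
  unfold F Fv
  rw [norm_mul, norm_pow, Complex.norm_exp]
  congr 2
  simp

lemma Dom.F_pow {z : ℂ} (h : Dom z) : ‖F z‖ ^ (8 / 7 : ℝ) =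
    ‖y (V z)‖ ^ 8 * Real.exp (-(8 / 7) * (be (V z)).im) := by
  rw [h.F_norm, Real.mul_rpow (by positivity) (Real.exp_pos _).le, ← Real.exp_mul,
    ← Real.rpow_natCast, ← Real.rpow_mul (norm_nonneg _)]
  congr 1
  · rw [← Real.rpow_natCast]
    norm_num
  · congr 1
    ring

lemma Dom.FG {z : ℂ} (h : Dom z) :
    F z * conj (L (conj z) * H z) = ((‖F z‖ ^ (8 / 7 : ℝ) : ℝ) : ℂ) := by
  have hy := h.good.y_ne
  rw [h.F_pow]
  unfold F Fv L Lv H Hv
  rw [h.V_conj, be_conj, y_conj]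
  obtain ⟨v, hv⟩ : ∃ v, v = V z := ⟨_, rfl⟩
  rw [← hv] at hy ⊢
  obtain ⟨b, hb⟩ : ∃ b, b = be v := ⟨_, rfl⟩
  obtain ⟨w, hw⟩ : ∃ w, w = y v := ⟨_, rfl⟩
  rw [← hb, ← hw]
  rw [← hw] at hy
  have e1 : (conj (exp (I * ((3 / 7 : ℝ) * conj b)) / conj w ^ 3 * (w ^ 4 * exp (I * ((4 / 7 : ℝ) * b))))) =
      exp (-I * ((3 / 7 : ℝ) * b)) / w ^ 3 * (conj w ^ 4 * exp (-I * ((4 / 7 : ℝ) * conj b))) := by
    rw [map_mul, map_div₀, map_mul, map_pow, map_pow, Complex.conj_conj, ← Complex.exp_conj,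
      ← Complex.exp_conj]
    simp only [map_mul, Complex.conj_I, Complex.conj_conj, Complex.conj_ofReal]
  rw [e1]
  have e2 : exp (I * b) * exp (-I * ((3 / 7 : ℝ) * b)) * exp (-I * ((4 / 7 : ℝ) * conj b)) =
      ((Real.exp (-(8 / 7) * b.im) : ℝ) : ℂ) := by
    rw [← Complex.exp_add, ← Complex.exp_add, Complex.ofReal_exp]
    congr 1
    have h1 : b - conj b = (2 * b.im : ℝ) * I := Complex.sub_conj b
    have h2 : I * b + -I * ((3 / 7 : ℝ) * b) + -I * ((4 / 7 : ℝ) * conj b) =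
        (4 / 7) * I * (b - conj b) := by
      push_cast
      ring
    rw [h2, h1]
    push_cast
    linear_combination (8 / 7) * (b.im : ℂ) * Complex.I_sq
  have e3 : w ^ 4 * conj w ^ 4 = ((‖w‖ ^ 8 : ℝ) : ℂ) := by
    rw [← mul_pow, Complex.mul_conj, Complex.normSq_eq_norm_sq]
    push_cast
    ring
  calc w ^ 7 * exp (I * b) * (exp (-I * ((3 / 7 : ℝ) * b)) / w ^ 3 *
        (conj w ^ 4 * exp (-I * ((4 / 7 : ℝ) * conj b))))
      = (w ^ 4 * conj w ^ 4) * (exp (I * b) * exp (-I * ((3 / 7 : ℝ) * b)) *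
          exp (-I * ((4 / 7 : ℝ) * conj b))) := by
        field_simp
    _ = _ := by rw [e2, e3]; push_cast; ring

lemma Dom.F_ge {z : ℂ} (h : Dom z) : ‖V z‖ ^ 7 ≤ ‖F z‖ := by
  rw [h.F_norm]
  have h1 := h.good.y_ge
  have h2 := h.good.be_im
  have hp := h.good.pos
  have h3 : 1 / 3 ≤ Real.exp (-(be (V z)).im) := by
    have := exp_norm_ge h2
    rw [Complex.norm_exp] at this
    simpa using this
  calc ‖V z‖ ^ 7 ≤ (2 * ‖V z‖) ^ 7 * (1 / 3) := by
        rw [mul_pow]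
        have : 0 ≤ ‖V z‖ ^ 7 := by positivity
        nlinarith
    _ ≤ _ := by gcongr

lemma Dom.F_le {z : ℂ} (h : Dom z) : ‖F z‖ ^ (8 / 7 : ℝ) ≤ 4 ^ 8 * 27 * ‖V z‖ ^ 12 := by
  rw [h.F_pow]
  have h1 := h.good.y_le
  have h2 := h.good.be_im
  have hn := h.N_ge
  have h3 : Real.exp (-(8 / 7) * (be (V z)).im) ≤ 27 := by
    have h4 : -(8 / 7) * (be (V z)).im ≤ 2 := by
      have := neg_abs_le (be (V z)).im
      linarith
    have h5 : Real.exp 2 ≤ 27 := by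
      have h6 : Real.exp 2 = Real.exp 1 * Real.exp 1 := by
        rw [← Real.exp_add]; norm_num
      have := Real.exp_one_lt_d9
      have := Real.exp_pos 1
      rw [h6]
      nlinarith
    exact (Real.exp_le_exp.2 h4).trans h5
  calc ‖y (V z)‖ ^ 8 * Real.exp (-(8 / 7) * (be (V z)).im) ≤ (4 * ‖V z‖) ^ 8 * 27 := by gcongr
    _ = 4 ^ 8 * 27 * ‖V z‖ ^ 8 := by ring
    _ ≤ 4 ^ 8 * 27 * ‖V z‖ ^ 12 := by
        gcongr
        · linarith
        · norm_num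

lemma Dom.FG_norm {z : ℂ} (h : Dom z) : ‖L (conj z) * H z‖ ^ (8 : ℝ) = ‖F z‖ ^ (8 / 7 : ℝ) := by
  have h1 := congrArg norm h.FG
  have hF : 0 < ‖F z‖ := by
    have := h.F_ge
    have := h.good.pos
    have : 0 < ‖V z‖ ^ 7 := by positivity
    linarith
  rw [norm_mul, Complex.norm_conj, Complex.norm_real, Real.norm_of_nonneg (by positivity)] at h1
  have h2 : ‖L (conj z) * H z‖ = ‖F z‖ ^ (1 / 7 : ℝ) := by
    have h3 : ‖F z‖ ^ (8 / 7 : ℝ) = ‖F z‖ * ‖F z‖ ^ (1 / 7 : ℝ) := by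
      nth_rewrite 2 [← Real.rpow_one ‖F z‖]
      rw [← Real.rpow_add hF]
      norm_num
    rw [h3] at h1
    exact mul_left_cancel₀ hF.ne' h1
  rw [h2, ← Real.rpow_mul hF.le]
  norm_num

/-- integrability of `|1 - z|^(-1/2)` -/
lemma half_int : IntegrableOn (fun z : ℂ => ‖1 - z‖ ^ (-(1 / 2) : ℝ)) DD := by
  have h0 : IntegrableOn (fun r : ℝ => r ^ (1 / 2 : ℝ)) (Ioo 0 2) := by
    have h1 : IntervalIntegrable (fun x : ℝ => x ^ (1 / 2 : ℝ)) volume 0 2 :=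
      intervalIntegral.intervalIntegrable_rpow' (by norm_num)
    rw [intervalIntegrable_iff, uIoc_of_le (by norm_num)] at h1
    exact h1.mono_set Ioo_subset_Ioc_self
  have h1 := ((rad measurableSet_Ioo (fun x hx => hx.1) h0).1).comp_sub_right (1 : ℂ)
  refine (h1.integrableOn (s := DD)).congr ?_
  rw [EventuallyEq, ae_restrict_iff' measurableSet_ball]
  refine ae_of_all _ fun z hz => ?_
  have hp := one_sub_pos hz
  have h2 := one_sub_lt hz
  rw [norm_sub_rev, indicator_of_mem (show ‖1 - z‖ ∈ Ioo 0 2 from ⟨hp, h2⟩)]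
  nth_rewrite 2 [← Real.rpow_one ‖1 - z‖]
  rw [← Real.rpow_sub hp]
  norm_num

lemma V_le : ∃ C : ℝ, 0 ≤ C ∧ ∀ z ∈ DD, ‖V z‖ ^ 12 ≤ C * ‖1 - z‖ ^ (-(1 / 2) : ℝ) := by
  refine ⟨(2 * 10000006 + 4) ^ 2, by positivity, fun z hz => ?_⟩
  have h := dom_of hz
  have hp := h.pos
  have h2 := h.le
  have h1 : ‖V z‖ ^ 12 = ‖S z‖ ^ 2 := by rw [← h.N6]; ring
  have h3 : ‖S z‖ ≤ |(S z).re| + |(S z).im| := Complex.norm_le_abs_re_add_abs_im _
  have h4 := h.S_im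
  have h5 := X_ge hp h2
  rw [h.S_re, abs_of_nonneg (by linarith)] at h3
  have h6 : X ‖1 - z‖ ≤ 10000000 + 4 * ‖1 - z‖ ^ (-(1 / 4) : ℝ) := by
    unfold X
    have h7 := Real.log_le_rpow_div (x := ‖1 - z‖⁻¹) (by positivity) (ε := 1 / 4) (by norm_num)
    rw [Real.log_inv, Real.inv_rpow hp.le, ← Real.rpow_neg hp.le] at h7
    linarith
  have h8 : 1 ≤ 2 * ‖1 - z‖ ^ (-(1 / 4) : ℝ) := by
    have h9 : (2 : ℝ) ^ (-(1 / 4) : ℝ) ≤ ‖1 - z‖ ^ (-(1 / 4) : ℝ) :=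
      Real.rpow_le_rpow_of_nonpos hp h2 (by norm_num)
    have h10 : (2 : ℝ) ^ (-1 : ℝ) ≤ (2 : ℝ) ^ (-(1 / 4) : ℝ) :=
      Real.rpow_le_rpow_of_exponent_le (by norm_num) (by norm_num)
    rw [Real.rpow_neg_one] at h10
    linarith
  have h11 : ‖S z‖ ≤ (2 * 10000006 + 4) * ‖1 - z‖ ^ (-(1 / 4) : ℝ) := by nlinarith
  have h12 : (‖1 - z‖ ^ (-(1 / 4) : ℝ)) ^ 2 = ‖1 - z‖ ^ (-(1 / 2) : ℝ) := by
    rw [← Real.rpow_natCast, ← Real.rpow_mul hp.le]
    norm_num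
  rw [h1, ← h12, ← mul_pow]
  exact pow_le_pow_left₀ (norm_nonneg _) h11 2

lemma F_diffOn : DifferentiableOn ℂ F DD := fun _ hz => (dom_of hz).F_diff.differentiableWithinAt

lemma F_int : IntegrableOn (fun z => ‖F z‖ ^ (8 / 7 : ℝ)) DD := by
  obtain ⟨C, hC, h⟩ := V_le
  have hm : AEStronglyMeasurable (fun z => ‖F z‖ ^ (8 / 7 : ℝ)) (volume.restrict DD) := by
    apply ContinuousOn.aestronglyMeasurable _ measurableSet_ball
    exact (F_diffOn.continuousOn.norm).rpow_const fun _ _ => Or.inr (by norm_num)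
  refine Integrable.mono' ((half_int.const_mul (4 ^ 8 * 27 * C))) hm ?_
  rw [ae_restrict_iff' measurableSet_ball]
  refine ae_of_all _ fun z hz => ?_
  rw [Real.norm_of_nonneg (by positivity)]
  refine (dom_of hz).F_le.trans ?_
  have := h z hz
  calc 4 ^ 8 * 27 * ‖V z‖ ^ 12 ≤ 4 ^ 8 * 27 * (C * ‖1 - z‖ ^ (-(1 / 2) : ℝ)) := by gcongr
    _ = _ := by ring

lemma F_pos : 0 < ∫ z in DD, ‖F z‖ ^ (8 / 7 : ℝ) := by
  have hfin := finDD
  have h1 : ∫ z in DD, (1 : ℝ) ≤ ∫ z in DD, ‖F z‖ ^ (8 / 7 : ℝ) := by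
    refine setIntegral_mono_on (integrable_const _) F_int measurableSet_ball fun z hz => ?_
    have h2 := (dom_of hz).F_ge
    have h3 := (dom_of hz).N_ge
    have h4 : 1 ≤ ‖V z‖ ^ 7 := one_le_pow₀ (by linarith)
    exact Real.one_le_rpow (by linarith) (by norm_num)
  have h2 : ∫ z in DD, (1 : ℝ) = Real.pi := by
    rw [setIntegral_const, Measure.real, Complex.volume_ball]
    simp
  rw [h2] at h1
  linarith [Real.pi_pos]

/-- **The main theorem without definitions.** -/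
theorem main : ∃ (k : ℂ → ℂ) (c : ℝ), 0 < c ∧ DifferentiableOn ℂ k DD ∧ (∃ C : ℝ, ∀ z ∈ DD, ‖k z‖ ≤ C) ∧
      (∃ z ∈ DD, k z ≠ 0) ∧
      IntegrableOn (fun z => ‖(c : ℂ) * F z‖ ^ (8 / 7 : ℝ)) DD ∧
      ∫ z in DD, ‖(c : ℂ) * F z‖ ^ (8 / 7 : ℝ) = 1 ∧
      ∀ f : ℂ → ℂ, DifferentiableOn ℂ f DD → IntegrableOn (fun z => ‖f z‖ ^ (8 / 7 : ℝ)) DD →
        ∫ z in DD, ‖f z‖ ^ (8 / 7 : ℝ) = 1 →
        (∫ z in DD, f z * conj (k z)).re ≤ (∫ z in DD, (c : ℂ) * F z * conj (k z)).re := by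
  obtain ⟨K, J, M, hd, hK⟩ := exists_dat
  exact hd.extremal hK F_diffOn F_int F_pos (fun z hz => (dom_of hz).FG)
    (fun z hz => (dom_of hz).FG_norm)

/-! ### The boundary values -/

/-- points of the circle close to `1` -/
lemma dom_circle {θ : ℝ} (h0 : 0 < θ) (h1 : θ < 1) : Dom (circleMap 0 1 θ) ∧
    ‖1 - circleMap 0 1 θ‖ ≤ θ := by
  have e1 : circleMap 0 1 θ = exp (θ * I) := by simp [circleMap]
  have h2 : Real.cos θ < 1 := by
    have h3 := Real.cos_lt_cos_of_nonneg_of_le_pi_div_two (x := 0) (y := θ) le_rfl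
      (by linarith [Real.pi_gt_three]) h0
    rwa [Real.cos_zero] at h3
  have h3 : ‖1 - circleMap 0 1 θ‖ ≤ θ := by
    rw [e1, norm_sub_rev]
    have := Real.norm_exp_I_mul_ofReal_sub_one_le (x := θ)
    rw [mul_comm] at this
    rwa [Real.norm_of_nonneg h0.le] at this
  refine ⟨⟨?_, by linarith⟩, h3⟩
  rw [e1, sub_re, one_re, exp_ofReal_mul_I_re]
  linarith

lemma F_large {m : ℕ} {θ : ℝ} (h0 : 0 < θ) (h1 : θ < 1) (h2 : θ ≤ (1 / 2) ^ (2 * m ^ 6)) :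
    (m : ℝ) ^ 7 ≤ ‖F (circleMap 0 1 θ)‖ := by
  obtain ⟨hd, hn⟩ := dom_circle h0 h1
  refine le_trans ?_ hd.F_ge
  have h3 : (m : ℝ) ^ 6 ≤ ‖V (circleMap 0 1 θ)‖ ^ 6 := by
    rw [hd.N6]
    refine le_trans ?_ hd.S_norm
    unfold X
    have h4 : Real.log ‖1 - circleMap 0 1 θ‖ ≤ Real.log ((1 / 2) ^ (2 * m ^ 6)) :=
      Real.log_le_log hd.pos (hn.trans h2)
    rw [Real.log_pow, one_div, Real.log_inv] at h4
    have h5 := Real.log_two_gt_d9
    have h6 : (0 : ℝ) ≤ (m : ℝ) ^ 6 := by positivity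
    push_cast at h4
    nlinarith
  have h4 : (m : ℝ) ≤ ‖V (circleMap 0 1 θ)‖ :=
    (pow_le_pow_iff_left₀ (Nat.cast_nonneg m) (norm_nonneg _) (by norm_num)).1 h3
  exact pow_le_pow_left₀ (Nat.cast_nonneg m) h4 7

/-- `c F` has no boundary function of bounded mean oscillation -/
theorem not_bmo {c : ℝ} (hc : 0 < c) (g : ℝ → ℂ)
    (hg : ∀ᵐ θ : ℝ, Tendsto (fun r : ℝ => (c : ℂ) * F (circleMap 0 r θ)) (𝓝[<] 1) (𝓝 (g θ)))
    {B : ℝ} (hB : ∀ α β : ℝ, α < β → β ≤ α + 2 * Real.pi → IntervalIntegrable g volume α β ∧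
      (1 / (β - α)) * ∫ θ in α..β, ‖g θ - (1 / (β - α)) • ∫ φ in α..β, g φ‖ ≤ B) : False := by
  -- the boundary values
  have hval : ∀ᵐ θ : ℝ, θ ∈ Ioo (0 : ℝ) 1 → g θ = c * F (circleMap 0 1 θ) := by
    filter_upwards [hg] with θ hθ hθ1
    obtain ⟨hd, -⟩ := dom_circle hθ1.1 hθ1.2
    have h1 : Tendsto (fun r : ℝ => circleMap 0 r θ) (𝓝[<] 1) (𝓝 (circleMap 0 1 θ)) := by
      have h2 : Continuous (fun r : ℝ => circleMap 0 r θ) := by
        unfold circleMap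
        fun_prop
      exact (h2.tendsto 1).mono_left nhdsWithin_le_nhds
    have h2 := (hd.F_diff.continuousAt.tendsto.comp h1).const_mul (c : ℂ)
    exact tendsto_nhds_unique hθ h2
  obtain ⟨h, hh⟩ : ∃ h : ℕ → ℝ, h = fun n => (1 / 2 : ℝ) ^ n := ⟨_, rfl⟩
  have hpos : ∀ n, 0 < h n := fun n => by rw [hh]; positivity
  have hle : ∀ n, h n ≤ 1 := fun n => by rw [hh]; exact pow_le_one₀ (by norm_num) (by norm_num)
  have hsucc : ∀ n, h (n + 1) = h n / 2 := fun n => by rw [hh]; simp only [pow_succ]; ring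
  obtain ⟨μ, hμ⟩ : ∃ μ : ℕ → ℂ, μ = fun n => (1 / (h n - 0)) • ∫ φ in (0 : ℝ)..h n, g φ := ⟨_, rfl⟩
  have hBn : ∀ n, IntervalIntegrable g volume 0 (h n) ∧
      (1 / (h n - 0)) * ∫ θ in (0 : ℝ)..h n, ‖g θ - μ n‖ ≤ B := by
    intro n
    rw [hμ]
    exact hB 0 (h n) (hpos n) (by linarith [hle n, Real.pi_gt_three])
  have hint : ∀ n m, IntervalIntegrable (fun θ => ‖g θ - μ m‖) volume 0 (h n) := by
    intro n m
    exact ((hBn n).1.sub intervalIntegrable_const).norm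
  have hstep : ∀ n, ‖μ (n + 1)‖ ≤ ‖μ n‖ + 2 * B := by
    intro n
    have h1 : μ (n + 1) - μ n = (1 / (h (n + 1))) • ∫ θ in (0 : ℝ)..h (n + 1), (g θ - μ n) := by
      rw [intervalIntegral.integral_sub (hBn (n + 1)).1 intervalIntegrable_const,
        intervalIntegral.integral_const, smul_sub, smul_smul, sub_zero,
        one_div_mul_cancel (hpos (n + 1)).ne', one_smul, hμ]
      simp only [sub_zero]
    have h2 : ‖μ (n + 1) - μ n‖ ≤ 2 * B := by
      rw [h1, norm_smul, Real.norm_of_nonneg (by have := hpos (n + 1); positivity)]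
      have h3 := intervalIntegral.norm_integral_le_integral_norm (f := fun θ => g θ - μ n) (μ := volume)
        (hpos (n + 1)).le
      have h4 : ∫ θ in (0 : ℝ)..h (n + 1), ‖g θ - μ n‖ ≤ ∫ θ in (0 : ℝ)..h n, ‖g θ - μ n‖ := by
        refine intervalIntegral.integral_mono_interval le_rfl (hpos (n + 1)).le ?_ ?_ (hint n n)
        · rw [hsucc]
          linarith [hpos n]
        · exact ae_of_all _ fun θ => norm_nonneg _
      have h5 := (hBn n).2
      rw [sub_zero] at h5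
      have h6 := hpos n
      have h7 : 1 / h (n + 1) = 2 * (1 / h n) := by
        rw [hsucc]
        field_simp
      rw [h7]
      calc 2 * (1 / h n) * ‖∫ θ in (0 : ℝ)..h (n + 1), (g θ - μ n)‖
          ≤ 2 * (1 / h n) * ∫ θ in (0 : ℝ)..h n, ‖g θ - μ n‖ := by
            gcongr
            exact h3.trans h4
        _ = 2 * ((1 / h n) * ∫ θ in (0 : ℝ)..h n, ‖g θ - μ n‖) := by ring
        _ ≤ 2 * B := by linarith
    have h3 : μ (n + 1) = (μ (n + 1) - μ n) + μ n := by ring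
    rw [h3]
    refine (norm_add_le _ _).trans ?_
    linarith
  have hlin : ∀ n : ℕ, ‖μ n‖ ≤ ‖μ 0‖ + 2 * B * n := by
    intro n
    induction n with
    | zero => simp
    | succ n ih =>
      have := hstep n
      push_cast
      linarith
  have hB0 : 0 ≤ B := by
    refine le_trans ?_ (hBn 0).2
    apply mul_nonneg
    · have := hpos 0
      rw [sub_zero]
      positivity
    · exact intervalIntegral.integral_nonneg (hpos 0).le fun θ _ => norm_nonneg _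
  -- the contradiction
  have key : ∀ m : ℕ, 1 ≤ m → c * (m : ℝ) ^ 7 ≤ B + ‖μ 0‖ + 2 * B * (2 * (m : ℝ) ^ 6) := by
    intro m hm
    obtain ⟨n, hn⟩ : ∃ n, n = 2 * m ^ 6 := ⟨_, rfl⟩
    have hn1 : 1 ≤ n := by
      rw [hn]
      have := Nat.one_le_pow 6 m hm
      omega
    have hlt : h n < 1 := by
      rw [hh]
      exact pow_lt_one₀ (by norm_num) (by norm_num) (by omega)
    have h1 : ∫ θ in (0 : ℝ)..h n, (c * (m : ℝ) ^ 7) ≤ ∫ θ in (0 : ℝ)..h n, ‖g θ‖ := by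
      refine intervalIntegral.integral_mono_ae_restrict (hpos n).le intervalIntegrable_const
        (hBn n).1.norm ?_
      rw [Filter.EventuallyLE, ae_restrict_iff' measurableSet_Icc]
      filter_upwards [hval, compl_mem_ae_iff.2 (measure_singleton (μ := (volume : Measure ℝ)) (0 : ℝ))]
        with θ hθ h0 hI
      have h2 : 0 < θ := lt_of_le_of_ne hI.1 (fun h => h0 h.symm)
      have h3 : θ < 1 := lt_of_le_of_lt hI.2 hlt
      have h4 := hI.2
      rw [hh, hn] at h4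
      rw [hθ ⟨h2, h3⟩, norm_mul, norm_real, Real.norm_of_nonneg hc.le]
      exact mul_le_mul_of_nonneg_left (F_large h2 h3 h4) hc.le
    have h2 : ∫ θ in (0 : ℝ)..h n, ‖g θ‖ ≤ ∫ θ in (0 : ℝ)..h n, (‖g θ - μ n‖ + ‖μ n‖) := by
      refine intervalIntegral.integral_mono_on (hpos n).le (hBn n).1.norm
        ((hint n n).add intervalIntegrable_const) fun θ _ => ?_
      have := norm_add_le (g θ - μ n) (μ n)
      rwa [sub_add_cancel] at this
    rw [intervalIntegral.integral_add (hint n n) intervalIntegrable_const,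
      intervalIntegral.integral_const, sub_zero, smul_eq_mul] at h2
    rw [intervalIntegral.integral_const, sub_zero, smul_eq_mul] at h1
    have h3 := (hBn n).2
    rw [sub_zero, one_div, inv_mul_le_iff₀ (hpos n)] at h3
    have h4 : h n * (c * (m : ℝ) ^ 7) ≤ h n * (B + ‖μ n‖) := by
      linarith
    have h5 := le_of_mul_le_mul_left h4 (hpos n)
    have h6 := hlin n
    rw [hn] at h6
    push_cast at h6
    rw [hn] at h5
    linarith
  obtain ⟨m, hm⟩ := exists_nat_gt ((B + ‖μ 0‖ + 4 * B) / c)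
  have hA : 0 ≤ B + ‖μ 0‖ + 4 * B := by
    have := norm_nonneg (μ 0)
    linarith
  have hm0 : (0 : ℝ) < m := lt_of_le_of_lt (by positivity) hm
  have hm1 : 1 ≤ m := by
    have : 0 < m := by exact_mod_cast hm0
    omega
  have hm1' : (1 : ℝ) ≤ m := by exact_mod_cast hm1
  have h1 := key m hm1
  rw [div_lt_iff₀ hc] at hm
  have h6 : (1 : ℝ) ≤ (m : ℝ) ^ 6 := one_le_pow₀ hm1'
  have h7 : 0 ≤ B + ‖μ 0‖ := by
    have := norm_nonneg (μ 0)
    linarith
  have h8 : (B + ‖μ 0‖) * 1 ≤ (B + ‖μ 0‖) * (m : ℝ) ^ 6 := mul_le_mul_of_nonneg_left h6 h7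
  have h9 : (B + ‖μ 0‖ + 4 * B) * (m : ℝ) ^ 6 < (m * c) * (m : ℝ) ^ 6 :=
    mul_lt_mul_of_pos_right hm (by positivity)
  nlinarith

end Pool.Agent.Helper89.BX
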