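import Mathlib

/-! # The functions `y` and `β` -/

set_option autoImplicit false

namespace Pool.Agent.Helper89.BX

open Metric Set Filter Topology MeasureTheory Complex
open scoped ComplexConjugate

/-- the range of the variable `v` -/
structure Good (v : ℂ) : Prop where
  n : 10 ≤ ‖v‖
  i3 : |(v ^ 3).im| ≤ 1
  i1 : |v.im| ≤ 1 / 2

/-- `y = 3 v + cos v³` -/
noncomputable def y (v : ℂ) : ℂ := 3 * v + cos (v ^ 3)

/-- the derivative of `y` -/
noncomputable def y' (v : ℂ) : ℂ := 3 - 3 * v ^ 2 * sin (v ^ 3)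

/-- `β = v + sin v³ / (3 v)` -/
noncomputable def be (v : ℂ) : ℂ := v + sin (v ^ 3) / (3 * v)

/-- the derivative of `β` -/
noncomputable def be' (v : ℂ) : ℂ := 1 + v * cos (v ^ 3) - sin (v ^ 3) / (3 * v ^ 2)

lemma exp_norm_le {w : ℂ} (h : |w.im| ≤ 1) : ‖exp (I * w)‖ ≤ 3 := by
  rw [Complex.norm_exp]
  have h1 : (I * w).re = -w.im := by simp
  rw [h1]
  have h2 : -w.im ≤ 1 := by
    have := neg_abs_le w.im
    linarith
  have h3 := Real.exp_one_lt_d9
  have h4 := Real.exp_le_exp.2 h2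
  linarith

lemma exp_norm_ge {w : ℂ} (h : |w.im| ≤ 1) : 1 / 3 ≤ ‖exp (I * w)‖ := by
  rw [Complex.norm_exp]
  have h1 : (I * w).re = -w.im := by simp
  rw [h1]
  have h2 : -1 ≤ -w.im := by
    have := le_abs_self w.im
    linarith
  have h3 := Real.exp_one_lt_d9
  have h4 := Real.exp_le_exp.2 h2
  have h5 : Real.exp (-1) = (Real.exp 1)⁻¹ := Real.exp_neg 1
  have h6 : (1 : ℝ) / 3 ≤ (Real.exp 1)⁻¹ := by
    rw [one_div]
    exact inv_anti₀ (Real.exp_pos 1) (by linarith)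
  linarith

lemma cos_norm_le {w : ℂ} (h : |w.im| ≤ 1) : ‖cos w‖ ≤ 3 := by
  have h1 : cos w = (exp (I * w) + exp (I * (-w))) / 2 := by
    rw [Complex.cos]
    ring_nf
  rw [h1, norm_div, Complex.norm_ofNat]
  have h2 := exp_norm_le h
  have h3 : ‖exp (I * (-w))‖ ≤ 3 := exp_norm_le (by simpa using h)
  have h4 := norm_add_le (exp (I * w)) (exp (I * (-w)))
  linarith

lemma sin_norm_le {w : ℂ} (h : |w.im| ≤ 1) : ‖sin w‖ ≤ 3 := by
  have h1 : sin w = (exp (I * (-w)) - exp (I * w)) * I / 2 := by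
    rw [Complex.sin]
    ring_nf
  rw [h1, norm_div, Complex.norm_ofNat, norm_mul, Complex.norm_I, mul_one]
  have h2 := exp_norm_le h
  have h3 : ‖exp (I * (-w))‖ ≤ 3 := exp_norm_le (by simpa using h)
  have h4 := norm_sub_le (exp (I * (-w))) (exp (I * w))
  linarith

section

variable {v : ℂ}

lemma Good.ne (h : Good v) : v ≠ 0 := by
  intro h0
  have := h.n
  rw [h0, norm_zero] at this
  linarith

lemma Good.pos (h : Good v) : 0 < ‖v‖ := by linarith [h.n]

lemma Good.y_ge (h : Good v) : 2 * ‖v‖ ≤ ‖y v‖ := by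
  have h1 := cos_norm_le h.i3
  have h2 := norm_sub_norm_le (3 * v) (-cos (v ^ 3))
  rw [norm_neg, sub_neg_eq_add, norm_mul, Complex.norm_ofNat] at h2
  have := h.n
  unfold y
  linarith

lemma Good.y_le (h : Good v) : ‖y v‖ ≤ 4 * ‖v‖ := by
  have h1 := cos_norm_le h.i3
  have h2 := norm_add_le (3 * v) (cos (v ^ 3))
  rw [norm_mul, Complex.norm_ofNat] at h2
  have := h.n
  unfold y
  linarith

lemma Good.y_ne (h : Good v) : y v ≠ 0 := by
  intro h0
  have := h.y_ge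
  rw [h0, norm_zero] at this
  linarith [h.n]

lemma Good.y'_le (h : Good v) : ‖y' v‖ ≤ 10 * ‖v‖ ^ 2 := by
  have h1 := sin_norm_le h.i3
  have h2 := norm_sub_le 3 (3 * v ^ 2 * sin (v ^ 3))
  rw [norm_mul, norm_mul, norm_pow, Complex.norm_ofNat] at h2
  have := h.n
  unfold y'
  have h3 : 3 * ‖v‖ ^ 2 * ‖sin (v ^ 3)‖ ≤ 3 * ‖v‖ ^ 2 * 3 := by gcongr
  nlinarith

lemma Good.be'_le (h : Good v) : ‖be' v‖ ≤ 4 * ‖v‖ := by
  have h1 := sin_norm_le h.i3
  have h1' := cos_norm_le h.i3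
  have hn := h.n
  have h2 := norm_sub_le (1 + v * cos (v ^ 3)) (sin (v ^ 3) / (3 * v ^ 2))
  have h3 := norm_add_le 1 (v * cos (v ^ 3))
  rw [norm_one, norm_mul] at h3
  rw [norm_div, norm_mul, norm_pow, Complex.norm_ofNat] at h2
  have h4 : ‖sin (v ^ 3)‖ / (3 * ‖v‖ ^ 2) ≤ 1 := by
    rw [div_le_one (by positivity)]
    nlinarith
  have h5 : ‖v‖ * ‖cos (v ^ 3)‖ ≤ ‖v‖ * 3 := by gcongr
  unfold be'
  linarith

lemma Good.be_im (h : Good v) : |(be v).im| ≤ 1 := by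
  have h1 := sin_norm_le h.i3
  have hn := h.n
  have h2 : |(sin (v ^ 3) / (3 * v)).im| ≤ 1 / 2 := by
    refine (Complex.abs_im_le_norm _).trans ?_
    rw [norm_div, norm_mul, Complex.norm_ofNat, div_le_iff₀ (by positivity)]
    linarith
  have h3 := h.i1
  unfold be
  rw [add_im]
  refine (abs_add_le _ _).trans ?_
  linarith

lemma Good.exp_le (h : Good v) {c : ℝ} (h0 : 0 ≤ c) (h1 : c ≤ 1) : ‖exp (I * (c * be v))‖ ≤ 3 := by
  apply exp_norm_le
  rw [Complex.im_ofReal_mul, abs_mul, abs_of_nonneg h0]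
  have := h.be_im
  nlinarith [abs_nonneg (be v).im]

end

lemma hasDerivAt_y (v : ℂ) : HasDerivAt y (y' v) v := by
  have h1 : HasDerivAt (fun v : ℂ => v ^ 3) (3 * v ^ 2) v := by
    simpa using hasDerivAt_pow 3 v
  have h2 := ((hasDerivAt_id v).const_mul 3).add h1.ccos
  unfold y
  have e : y' v = 3 * 1 + -sin (v ^ 3) * (3 * v ^ 2) := by
    unfold y'
    ring
  rw [e]
  exact h2

lemma hasDerivAt_be {v : ℂ} (hv : v ≠ 0) : HasDerivAt be (be' v) v := by
  have h1 : HasDerivAt (fun v : ℂ => v ^ 3) (3 * v ^ 2) v := by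
    simpa using hasDerivAt_pow 3 v
  have h3 : HasDerivAt (fun v : ℂ => 3 * v) 3 v := by
    simpa using (hasDerivAt_id v).const_mul 3
  have h4 := (hasDerivAt_id v).add (h1.csin.div h3 (mul_ne_zero (by norm_num) hv))
  have e : be' v = 1 + (cos (v ^ 3) * (3 * v ^ 2) * (3 * v) - sin (v ^ 3) * 3) / (3 * v) ^ 2 := by
    unfold be'
    field_simp
    ring
  rw [e]
  exact h4

end Pool.Agent.Helper89.BX
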