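import Pool.Agent.Helper89.BX.Fn

/-! # Oscillating functions with bounded primitives -/

set_option autoImplicit false

namespace Pool.Agent.Helper89.BX

open Metric Set Filter Topology MeasureTheory Complex
open scoped ComplexConjugate

/-- `f` has a bounded primitive up to terms of the order `|v|^(-2)` -/
def Bd (f : ℂ → ℂ) : Prop := ∃ (P P' : ℂ → ℂ) (C : ℝ), ∀ v, Good v →
  HasDerivAt P (P' v) v ∧ ‖P v‖ ≤ C ∧ ‖f v - P' v‖ ≤ C / ‖v‖ ^ 2

lemma Bd.add {f g : ℂ → ℂ} (hf : Bd f) (hg : Bd g) : Bd (fun v => f v + g v) := by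
  obtain ⟨P, P', C, h⟩ := hf
  obtain ⟨Q, Q', D, k⟩ := hg
  refine ⟨fun v => P v + Q v, fun v => P' v + Q' v, C + D, fun v hv => ?_⟩
  obtain ⟨h1, h2, h3⟩ := h v hv
  obtain ⟨k1, k2, k3⟩ := k v hv
  refine ⟨h1.add k1, (norm_add_le _ _).trans (add_le_add h2 k2), ?_⟩
  have e : f v + g v - (P' v + Q' v) = (f v - P' v) + (g v - Q' v) := by ring
  rw [e, add_div]
  exact (norm_add_le _ _).trans (add_le_add h3 k3)

lemma Bd.smul {f : ℂ → ℂ} (hf : Bd f) (c : ℂ) : Bd (fun v => c * f v) := by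
  obtain ⟨P, P', C, h⟩ := hf
  refine ⟨fun v => c * P v, fun v => c * P' v, ‖c‖ * C, fun v hv => ?_⟩
  obtain ⟨h1, h2, h3⟩ := h v hv
  refine ⟨h1.const_mul c, ?_, ?_⟩
  · rw [norm_mul]
    gcongr
  · rw [← mul_sub, norm_mul, mul_div_assoc]
    gcongr

lemma Bd.congr {f g : ℂ → ℂ} (hf : Bd f) (h : ∀ v, Good v → g v = f v) : Bd g := by
  obtain ⟨P, P', C, k⟩ := hf
  refine ⟨P, P', C, fun v hv => ?_⟩
  rw [h v hv]
  exact k v hv

lemma Bd.small {f : ℂ → ℂ} {C : ℝ} (h : ∀ v, Good v → ‖f v‖ ≤ C / ‖v‖ ^ 2) : Bd f := by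
  refine ⟨fun _ => 0, fun _ => 0, max C 0, fun v hv => ⟨hasDerivAt_const _ _, ?_, ?_⟩⟩
  · simp
  · rw [sub_zero]
    refine (h v hv).trans ?_
    gcongr
    exact le_max_left _ _

/-- `f` agrees with `g` up to a small term -/
lemma Bd.of {f g : ℂ → ℂ} (hf : Bd f) {C : ℝ} (h : ∀ v, Good v → ‖g v - f v‖ ≤ C / ‖v‖ ^ 2) :
    Bd g :=
  (hf.add (Bd.small h)).congr fun v _ => by ring

/-- the exponentials -/
noncomputable def e (j : ℤ) (v : ℂ) : ℂ := exp (I * (j * v ^ 3 + be v))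

lemma e_le (j : ℤ) {v : ℂ} (h : Good v) : ‖e j v‖ ≤ Real.exp (|(j : ℝ)| + 1) := by
  unfold e
  rw [Complex.norm_exp]
  apply Real.exp_le_exp.2
  have h1 : (I * ((j : ℂ) * v ^ 3 + be v)).re = -(j * (v ^ 3).im + (be v).im) := by
    have h2 : ((j : ℂ) * v ^ 3).im = j * (v ^ 3).im := by
      rw [← Complex.ofReal_intCast, Complex.im_ofReal_mul]
    rw [Complex.I_mul_re, add_im, h2]
  rw [h1]
  refine (neg_le_abs _).trans ((abs_add_le _ _).trans (add_le_add ?_ h.be_im))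
  rw [abs_mul]
  have := h.i3
  nlinarith [abs_nonneg (j : ℝ)]

lemma e_cos (j : ℤ) (v : ℂ) : cos (v ^ 3) * e j v = (e (j + 1) v + e (j - 1) v) / 2 := by
  unfold e
  rw [Complex.cos]
  have h1 : I * (((j + 1 : ℤ) : ℂ) * v ^ 3 + be v) = v ^ 3 * I + I * (j * v ^ 3 + be v) := by
    push_cast; ring
  have h2 : I * (((j - 1 : ℤ) : ℂ) * v ^ 3 + be v) = -(v ^ 3) * I + I * (j * v ^ 3 + be v) := by
    push_cast; ring
  rw [h1, h2, exp_add, exp_add]
  ring

lemma e_sin (j : ℤ) (v : ℂ) : sin (v ^ 3) * e j v = -I * (e (j + 1) v - e (j - 1) v) / 2 := by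
  unfold e
  rw [Complex.sin]
  have h1 : I * (((j + 1 : ℤ) : ℂ) * v ^ 3 + be v) = v ^ 3 * I + I * (j * v ^ 3 + be v) := by
    push_cast; ring
  have h2 : I * (((j - 1 : ℤ) : ℂ) * v ^ 3 + be v) = -(v ^ 3) * I + I * (j * v ^ 3 + be v) := by
    push_cast; ring
  rw [h1, h2, exp_add, exp_add]
  ring

lemma e_deriv (j : ℤ) {v : ℂ} (hv : v ≠ 0) :
    HasDerivAt (e j) (e j v * (I * (j * (3 * v ^ 2) + be' v))) v := by
  have h1 : HasDerivAt (fun v : ℂ => v ^ 3) (3 * v ^ 2) v := by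
    simpa using hasDerivAt_pow 3 v
  have h2 := (((h1.const_mul (j : ℂ)).add (hasDerivAt_be hv)).const_mul I).cexp
  exact h2

/-- the exact relations -/
lemma rel (j : ℤ) (r : ℕ) : Bd (fun v => e j v * (I * (j * (3 * v ^ 2) + be' v)) / v ^ r -
    r * e j v / v ^ (r + 1)) := by
  refine ⟨fun v => e j v / v ^ r, _, Real.exp (|(j : ℝ)| + 1), fun v hv => ⟨?_, ?_,
    le_of_eq_of_le (b := 0) (by rw [sub_self, norm_zero]) (by positivity)⟩⟩
  · have hv0 := hv.ne
    have h1 : HasDerivAt (fun v : ℂ => v ^ r) (r * v ^ (r - 1)) v := hasDerivAt_pow r v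
    have h2 := (e_deriv j hv0).div h1 (pow_ne_zero r hv0)
    have h3 : e j v * (I * (j * (3 * v ^ 2) + be' v)) / v ^ r - r * e j v / v ^ (r + 1) =
        (e j v * (I * (j * (3 * v ^ 2) + be' v)) * v ^ r - e j v * (r * v ^ (r - 1))) /
          (v ^ r) ^ 2 := by
      rcases r with _ | r
      · simp
      · simp only [Nat.add_sub_cancel]
        field_simp
        ring
    rw [h3]
    exact h2
  · rw [norm_div, norm_pow]
    have h1 := e_le j hv
    have h2 : 1 ≤ ‖v‖ ^ r := one_le_pow₀ (by linarith [hv.n])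
    exact (div_le_self (norm_nonneg _) h2).trans h1

/-- the relations up to small terms -/
lemma rel1 (j : ℤ) (r : ℕ) : Bd (fun v => (3 * j * I * v ^ 2 * e j v + I * e j v +
    I / 2 * v * (e (j + 1) v + e (j - 1) v)) / v ^ r) := by
  refine (rel j r).of (C := 3 * Real.exp (|(j : ℝ)| + 1) + r * Real.exp (|(j : ℝ)| + 1))
    fun v hv => ?_
  have hv0 := hv.ne
  have h1 : (3 * j * I * v ^ 2 * e j v + I * e j v + I / 2 * v * (e (j + 1) v + e (j - 1) v)) / v ^ r -
      (e j v * (I * (j * (3 * v ^ 2) + be' v)) / v ^ r - r * e j v / v ^ (r + 1)) =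
      I * (sin (v ^ 3) * e j v) / (3 * v ^ 2) / v ^ r + r * e j v / v ^ (r + 1) := by
    have h2 : I / 2 * v * (e (j + 1) v + e (j - 1) v) = I * v * (cos (v ^ 3) * e j v) := by
      rw [e_cos]
      ring
    rw [h2]
    unfold be'
    field_simp
    ring
  rw [h1]
  have hE := e_le j hv
  have hs := sin_norm_le hv.i3
  have hn := hv.n
  have hp := hv.pos
  refine (norm_add_le _ _).trans ?_
  rw [add_div]
  have hEp : 0 < Real.exp (|(j : ℝ)| + 1) := Real.exp_pos _
  apply add_le_add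
  · rw [norm_div, norm_div, norm_mul, norm_mul, Complex.norm_I, one_mul, norm_mul, Complex.norm_ofNat,
      norm_pow, norm_pow]
    have h3 : 1 ≤ ‖v‖ ^ r := one_le_pow₀ (by linarith)
    refine (div_le_self (by positivity) h3).trans ?_
    calc ‖sin (v ^ 3)‖ * ‖e j v‖ / (3 * ‖v‖ ^ 2) ≤ 3 * Real.exp (|(j : ℝ)| + 1) / (3 * ‖v‖ ^ 2) := by
          gcongr
      _ ≤ 3 * Real.exp (|(j : ℝ)| + 1) / ‖v‖ ^ 2 := by
          gcongr
          nlinarith [sq_nonneg ‖v‖]
  · rcases r with _ | r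
    · simp
    · rw [norm_div, norm_mul, norm_pow, Complex.norm_natCast]
      have h3 : ‖v‖ ^ 2 ≤ ‖v‖ ^ (r + 1 + 1) := pow_le_pow_right₀ (by linarith) (by omega)
      gcongr

lemma small_e (j : ℤ) (r : ℕ) (hr : 2 ≤ r) : Bd (fun v => e j v / v ^ r) := by
  refine Bd.small (C := Real.exp (|(j : ℝ)| + 1)) fun v hv => ?_
  rw [norm_div, norm_pow]
  have h1 := e_le j hv
  have h2 : ‖v‖ ^ 2 ≤ ‖v‖ ^ r := pow_le_pow_right₀ (by linarith [hv.n]) hr
  have := hv.pos
  gcongr

/-- `e_j / v` for `j ≠ 0` -/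
lemma b1 {j : ℤ} (hj : j ≠ 0) : Bd (fun v => e j v / v) := by
  have hj' : (j : ℂ) ≠ 0 := by exact_mod_cast hj
  have h := ((((rel1 j 3).add ((small_e j 3 (by norm_num)).smul (-I))).add
    ((small_e (j + 1) 2 le_rfl).smul (-I / 2))).add
    ((small_e (j - 1) 2 le_rfl).smul (-I / 2))).smul (1 / (3 * j * I))
  refine h.congr fun v hv => ?_
  have hv0 := hv.ne
  have hI := Complex.I_ne_zero
  field_simp
  ring

/-- `e_j` for `|j| ≥ 2` -/
lemma b0 {j : ℤ} (h0 : j ≠ 0) (h1 : j + 1 ≠ 0) (h2 : j - 1 ≠ 0) : Bd (e j) := by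
  have hj' : (j : ℂ) ≠ 0 := by exact_mod_cast h0
  have h := ((((rel1 j 2).add ((small_e j 2 le_rfl).smul (-I))).add
    ((b1 h1).smul (-I / 2))).add ((b1 h2).smul (-I / 2))).smul (1 / (3 * j * I))
  refine h.congr fun v hv => ?_
  have hv0 := hv.ne
  have hI := Complex.I_ne_zero
  field_simp
  ring

lemma a1 : Bd (fun v => 3 * I * e 1 v + I / 2 * e 0 v / v) := by
  have h := ((rel1 1 2).add ((small_e 1 2 le_rfl).smul (-I))).add
    ((b1 (j := 2) (by norm_num)).smul (-I / 2))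
  refine h.congr fun v hv => ?_
  have hv0 := hv.ne
  norm_num
  field_simp
  ring

lemma a1' : Bd (fun v => -3 * I * e (-1) v + I / 2 * e 0 v / v) := by
  have h := ((rel1 (-1) 2).add ((small_e (-1) 2 le_rfl).smul (-I))).add
    ((b1 (j := -2) (by norm_num)).smul (-I / 2))
  refine h.congr fun v hv => ?_
  have hv0 := hv.ne
  norm_num
  field_simp
  ring

lemma b1z : Bd (fun v => e 0 v / v) := by
  have h := ((((rel1 0 1).add (a1.smul (-1 / 6))).add (a1'.smul (1 / 6)))).smul (1 / I)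
  refine h.congr fun v hv => ?_
  have hv0 := hv.ne
  have hI := Complex.I_ne_zero
  norm_num
  field_simp
  ring_nf
  simp only [Complex.I_sq]
  ring

lemma b0p : Bd (e 1) := by
  have h := (a1.add (b1z.smul (-I / 2))).smul (1 / (3 * I))
  refine h.congr fun v hv => ?_
  have hv0 := hv.ne
  have hI := Complex.I_ne_zero
  field_simp
  ring

lemma b0m : Bd (e (-1)) := by
  have h := (a1'.add (b1z.smul (-I / 2))).smul (-1 / (3 * I))
  refine h.congr fun v hv => ?_
  have hv0 := hv.ne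
  have hI := Complex.I_ne_zero
  field_simp
  ring

/-- `v e_2` -/
lemma c2 : Bd (fun v => v * e 2 v) := by
  have h := ((((rel1 2 1).add ((b1 (j := 2) (by norm_num)).smul (-I))).add
    ((b0 (j := 3) (by norm_num) (by norm_num) (by norm_num)).smul (-I / 2))).add
    (b0p.smul (-I / 2))).smul (1 / (6 * I))
  refine h.congr fun v hv => ?_
  have hv0 := hv.ne
  have hI := Complex.I_ne_zero
  norm_num
  field_simp
  ring_nf
  simp only [Complex.I_sq]
  ring

lemma c2' : Bd (fun v => v * e (-2) v) := by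
  have h := ((((rel1 (-2) 1).add ((b1 (j := -2) (by norm_num)).smul (-I))).add
    ((b0 (j := -3) (by norm_num) (by norm_num) (by norm_num)).smul (-I / 2))).add
    (b0m.smul (-I / 2))).smul (-1 / (6 * I))
  refine h.congr fun v hv => ?_
  have hv0 := hv.ne
  have hI := Complex.I_ne_zero
  norm_num
  field_simp
  ring

lemma d1 : Bd (fun v => 3 * I * v * e 1 v + I / 2 * e 0 v) := by
  have h := ((rel1 1 1).add ((b1 (j := 1) (by norm_num)).smul (-I))).add
    ((b0 (j := 2) (by norm_num) (by norm_num) (by norm_num)).smul (-I / 2))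
  refine h.congr fun v hv => ?_
  have hv0 := hv.ne
  norm_num
  field_simp
  ring

lemma d1' : Bd (fun v => -3 * I * v * e (-1) v + I / 2 * e 0 v) := by
  have h := ((rel1 (-1) 1).add ((b1 (j := -1) (by norm_num)).smul (-I))).add
    ((b0 (j := -2) (by norm_num) (by norm_num) (by norm_num)).smul (-I / 2))
  refine h.congr fun v hv => ?_
  have hv0 := hv.ne
  norm_num
  field_simp
  ring

lemma b0z : Bd (e 0) := by
  have h := ((((rel1 0 0).add (d1.smul (-1 / 6))).add (d1'.smul (1 / 6)))).smul (1 / I)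
  refine h.congr fun v hv => ?_
  have hv0 := hv.ne
  have hI := Complex.I_ne_zero
  norm_num
  field_simp
  ring_nf
  simp only [Complex.I_sq]
  ring

lemma g1 : Bd (fun v => 3 * I * v ^ 2 * e 1 v + I / 2 * v * e 0 v) := by
  have h := ((rel1 1 0).add (b0p.smul (-I))).add (c2.smul (-I / 2))
  refine h.congr fun v hv => ?_
  norm_num
  ring

lemma g1' : Bd (fun v => -3 * I * v ^ 2 * e (-1) v + I / 2 * v * e 0 v) := by
  have h := ((rel1 (-1) 0).add (b0m.smul (-I))).add (c2'.smul (-I / 2))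
  refine h.congr fun v hv => ?_
  norm_num
  ring

/-- the derivative of the main part of the kernel -/
noncomputable def f0 (v : ℂ) : ℂ := (7 * y' v + I * y v * be' v) * exp (I * be v)

theorem f0_bd : Bd f0 := by
  have h := (((((g1.smul 4).add (g1'.smul 3)).add (b0z.smul 21)).add ((c2.add c2').smul (I / 4))).add
    ((b0p.add b0m).smul (I / 2))).add
    (((b1 (j := 1) (by norm_num)).add ((b1 (j := -1) (by norm_num)).smul (-1))).smul (-1 / 2))
  refine h.of (C := 9 * Real.exp 1) fun v hv => ?_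
  have hv0 := hv.ne
  have k0 : exp (I * be v) = e 0 v := by
    unfold e
    norm_num
  have k1 : cos (v ^ 3) * e 0 v = (e 1 v + e (-1) v) / 2 := by
    have := e_cos 0 v
    norm_num at this
    exact this
  have k2 : sin (v ^ 3) * e 0 v = -I * (e 1 v - e (-1) v) / 2 := by
    have := e_sin 0 v
    norm_num at this
    rw [this]
    ring
  have k3 : cos (v ^ 3) * e 1 v = (e 2 v + e 0 v) / 2 := by
    have := e_cos 1 v
    norm_num at this
    exact this
  have k4 : cos (v ^ 3) * e (-1) v = (e 0 v + e (-2) v) / 2 := by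
    have := e_cos (-1) v
    norm_num at this
    exact this
  have key : f0 v - (4 * (3 * I * v ^ 2 * e 1 v + I / 2 * v * e 0 v) +
      3 * (-3 * I * v ^ 2 * e (-1) v + I / 2 * v * e 0 v) + 21 * e 0 v +
      I / 4 * (v * e 2 v + v * e (-2) v) + I / 2 * (e 1 v + e (-1) v) +
      -1 / 2 * (e 1 v / v + -1 * (e (-1) v / v))) =
      -(I * (sin (v ^ 3) * cos (v ^ 3) * e 0 v) / (3 * v ^ 2)) := by
    unfold f0 y y' be'
    rw [k0]
    have hI := Complex.I_sq
    obtain ⟨s, hs⟩ : ∃ s, s = sin (v ^ 3) := ⟨_, rfl⟩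
    obtain ⟨c, hc⟩ : ∃ c, c = cos (v ^ 3) := ⟨_, rfl⟩
    rw [← hs] at k2
    rw [← hc] at k1 k3 k4
    rw [← hs, ← hc]
    have q1 : (e 1 v + e (-1) v) = 2 * (c * e 0 v) := by rw [k1]; ring
    have q2 : e 1 v - e (-1) v = 2 * I * (s * e 0 v) := by
      rw [k2]
      linear_combination (e 1 v - e (-1) v) * hI
    have q3 : e 1 v = c * e 0 v + I * (s * e 0 v) := by linear_combination (q1 + q2) / 2
    have q4 : e (-1) v = c * e 0 v - I * (s * e 0 v) := by linear_combination (q1 - q2) / 2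
    have q5 : e 2 v = 2 * (c * e 1 v) - e 0 v := by rw [k3]; ring
    have q6 : e (-2) v = 2 * (c * e (-1) v) - e 0 v := by rw [k4]; ring
    rw [q5, q6, q3, q4]
    field_simp
    ring_nf
    try simp only [Complex.I_sq]
    try ring_nf
  rw [key]
  have hE : ‖e 0 v‖ ≤ Real.exp 1 := by
    have := e_le 0 hv
    simpa using this
  have hs := sin_norm_le hv.i3
  have hc := cos_norm_le hv.i3
  have hp := hv.pos
  rw [norm_neg, norm_div, norm_mul, norm_mul, norm_mul, Complex.norm_I, one_mul, norm_mul,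
    Complex.norm_ofNat, norm_pow]
  calc ‖sin (v ^ 3)‖ * ‖cos (v ^ 3)‖ * ‖e 0 v‖ / (3 * ‖v‖ ^ 2) ≤ 3 * 3 * Real.exp 1 / (3 * ‖v‖ ^ 2) := by
        gcongr
    _ ≤ 9 * Real.exp 1 / ‖v‖ ^ 2 := by
        have : 3 * 3 * Real.exp 1 / (3 * ‖v‖ ^ 2) = (3 * Real.exp 1) / ‖v‖ ^ 2 := by field_simp
        rw [this]
        gcongr
        norm_num

end Pool.Agent.Helper89.BX
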