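import Pool.Agent.Helper89.BX.Ext
import Pool.Agent.Helper89.BX.Kb

/-! # The functions of the disc variable -/

set_option autoImplicit false

namespace Pool.Agent.Helper89.BX

open Metric Set Filter Topology MeasureTheory Complex
open scoped ComplexConjugate

/-- `10^7 - log (1 - z)` -/
noncomputable def S (z : ℂ) : ℂ := 10000000 - log (1 - z)

/-- the sixth root of `S` -/
noncomputable def V (z : ℂ) : ℂ := exp (log (S z) / 6)

/-- the part of the closed disc away from `1`, and more -/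
structure Dom (z : ℂ) : Prop where
  re : 0 < (1 - z).re
  le : ‖1 - z‖ ≤ 2

lemma dom_of {z : ℂ} (hz : z ∈ DD) : Dom z := ⟨one_sub_re hz, (one_sub_lt hz).le⟩

section

variable {z : ℂ}

lemma Dom.ne (h : Dom z) : 1 - z ≠ 0 := by
  intro h0
  have := h.re
  rw [h0] at this
  simp at this

lemma Dom.pos (h : Dom z) : 0 < ‖1 - z‖ := norm_pos_iff.2 h.ne

lemma Dom.S_re (_ : Dom z) : (S z).re = X ‖1 - z‖ := by
  unfold S X
  rw [sub_re, Complex.log_re]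
  norm_num

lemma Dom.S_re_ge (h : Dom z) : 9999999 ≤ (S z).re := by
  rw [h.S_re]
  exact X_ge h.pos h.le

lemma Dom.S_im (h : Dom z) : |(S z).im| ≤ 2 := by
  unfold S
  rw [sub_im, Complex.log_im]
  have h1 : ((10000000 : ℂ)).im = 0 := by norm_num
  rw [h1, zero_sub, abs_neg]
  have h2 : |arg (1 - z)| < Real.pi / 2 := by
    rw [Complex.abs_arg_lt_pi_div_two_iff]
    exact Or.inl h.re
  have := Real.pi_lt_d2
  linarith

lemma Dom.S_ne (h : Dom z) : S z ≠ 0 := by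
  intro h0
  have := h.S_re_ge
  rw [h0] at this
  norm_num at this

lemma Dom.S_norm (h : Dom z) : X ‖1 - z‖ ≤ ‖S z‖ := by
  rw [← h.S_re]
  exact Complex.re_le_norm _

lemma Dom.V6 (h : Dom z) : V z ^ 6 = S z := by
  unfold V
  rw [← Complex.exp_nat_mul]
  have : ((6 : ℕ) : ℂ) * (log (S z) / 6) = log (S z) := by
    push_cast
    ring
  rw [this, exp_log h.S_ne]

lemma Dom.N6 (h : Dom z) : ‖V z‖ ^ 6 = ‖S z‖ := by rw [← norm_pow, h.V6]

lemma Dom.N_ge (h : Dom z) : 10 ≤ ‖V z‖ := by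
  by_contra hcon
  push Not at hcon
  have h1 : ‖V z‖ ^ 6 < 10 ^ 6 := pow_lt_pow_left₀ hcon (norm_nonneg _) (by norm_num)
  rw [h.N6] at h1
  have h2 := h.S_norm
  have h3 := X_ge h.pos h.le
  norm_num at h1
  linarith

lemma Dom.good (h : Dom z) : Good (V z) := by
  have hN := h.N_ge
  have hre := h.S_re_ge
  have him := h.S_im
  -- the cube
  obtain ⟨a, b, ha, hb⟩ : ∃ a b : ℝ, a = (V z ^ 3).re ∧ b = (V z ^ 3).im := ⟨_, _, rfl, rfl⟩
  have h6 : (V z ^ 3) ^ 2 = S z := by rw [← pow_mul, h.V6]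
  have e1 : a ^ 2 - b ^ 2 = (S z).re := by
    rw [← h6, sq (V z ^ 3), mul_re, ← ha, ← hb]; ring
  have e2 : 2 * a * b = (S z).im := by
    rw [← h6, sq (V z ^ 3), mul_im, ← ha, ← hb]; ring
  have ha2 : 9999999 ≤ a ^ 2 := by nlinarith [sq_nonneg b]
  have hb3 : |b| ≤ 1 / 1000 := by
    have h7 : 4 * a ^ 2 * b ^ 2 ≤ 4 := by
      have h8 : (2 * a * b) ^ 2 ≤ 2 ^ 2 := by
        rw [e2]
        exact sq_le_sq' (by linarith [neg_abs_le (S z).im]) (by linarith [le_abs_self (S z).im])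
      nlinarith
    have h9 : b ^ 2 ≤ (1 / 1000) ^ 2 := by nlinarith [sq_nonneg b]
    exact abs_le_of_sq_le_sq h9 (by norm_num)
  -- the argument
  obtain ⟨c, d, hc, hd⟩ : ∃ c d : ℝ, c = (V z).re ∧ d = (V z).im := ⟨_, _, rfl, rfl⟩
  have hn2 : c ^ 2 + d ^ 2 = ‖V z‖ ^ 2 := by
    rw [← Complex.normSq_eq_norm_sq, Complex.normSq_apply, ← hc, ← hd]; ring
  have hd2 : d ^ 2 ≤ (3 / 10) * ‖V z‖ ^ 2 := by
    have h7 : V z = exp (log (S z) / 6) := rfl
    have h8 : d = ‖V z‖ * Real.sin (arg (S z) / 6) := by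
      rw [hd, h7, Complex.exp_im, Complex.norm_exp]
      congr 2
      have : (log (S z) / 6).im = (log (S z)).im / 6 := by
        rw [show (6 : ℂ) = ((6 : ℝ) : ℂ) by norm_num, Complex.div_ofReal_im]
      rw [this, Complex.log_im]
    rw [h8, mul_pow, mul_comm]
    have h9 : Real.sin (arg (S z) / 6) ^ 2 ≤ 3 / 10 := by
      refine Real.sin_sq_le_sq.trans ?_
      have h10 := Complex.abs_arg_le_pi (S z)
      have h11 := Real.pi_lt_d2
      have h12 : |arg (S z) / 6| ≤ 3.15 / 6 := by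
        rw [abs_div]
        norm_num
        linarith
      have h13 : (arg (S z) / 6) ^ 2 ≤ (3.15 / 6) ^ 2 := by
        rw [← sq_abs]
        exact pow_le_pow_left₀ (abs_nonneg _) h12 2
      refine h13.trans ?_
      norm_num
    gcongr
  have hb' : b = d * (3 * c ^ 2 - d ^ 2) := by
    rw [hb, show V z ^ 3 = V z * V z * V z by ring, mul_im, mul_re, mul_im, ← hc, ← hd]
    ring
  have hq : 180 ≤ 3 * c ^ 2 - d ^ 2 := by nlinarith
  have hd1 : |d| ≤ 1 / 2 := by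
    have h7 : |b| = |d| * (3 * c ^ 2 - d ^ 2) := by
      rw [hb', abs_mul, abs_of_nonneg (by linarith : 0 ≤ 3 * c ^ 2 - d ^ 2)]
    nlinarith [abs_nonneg d]
  exact ⟨hN, by rw [← hb]; linarith, by rw [← hd]; exact hd1⟩

lemma Dom.N7 (h : Dom z) : 1 / ‖V z‖ ^ 7 ≤ om ‖1 - z‖ := by
  have hX := X_ge h.pos h.le
  have h1 := h.S_norm
  have hN := h.N_ge
  have h2 : ‖V z‖ ^ 7 = ‖S z‖ ^ (7 / 6 : ℝ) := by
    rw [← h.N6, ← Real.rpow_natCast, ← Real.rpow_natCast, ← Real.rpow_mul (norm_nonneg _)]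
    norm_num
  unfold om
  rw [Real.rpow_neg (by linarith), h2, one_div]
  apply inv_anti₀ (by positivity)
  exact Real.rpow_le_rpow (by linarith) h1 (by norm_num)

lemma Dom.V_deriv (h : Dom z) : HasDerivAt V (1 / (6 * V z ^ 5 * (1 - z))) z := by
  have h1 : HasDerivAt (fun z : ℂ => 1 - z) (-1) z := by
    simpa using (hasDerivAt_id z).const_sub 1
  have h2 := (h1.clog (Or.inl h.re)).const_sub (10000000 : ℂ)
  have h3 : HasDerivAt S (-(-1 / (1 - z))) z := h2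
  have hS : S z ∈ slitPlane := Or.inl (by linarith [h.S_re_ge])
  have h4 := ((h3.clog hS).div_const 6).cexp
  have e1 : 1 / (6 * V z ^ 5 * (1 - z)) = exp (log (S z) / 6) * (-(-1 / (1 - z)) / S z / 6) := by
    have h5 : exp (log (S z) / 6) = V z := rfl
    have hV : V z ≠ 0 := Complex.exp_ne_zero _
    have hz := h.ne
    rw [h5, ← h.V6]
    field_simp
  rw [e1]
  exact h4

lemma Dom.conj (h : Dom z) : Dom (conj z) := by
  refine ⟨?_, ?_⟩
  · have := h.re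
    simpa using this
  · rw [norm_one_sub_conj]
    exact h.le

lemma Dom.V_conj (h : Dom z) : V (conj z) = conj (V z) := by
  have h1 : S (conj z) = conj (S z) := by
    unfold S
    have h2 : (1 : ℂ) - conj z = conj (1 - z) := by simp
    rw [h2, Complex.log_conj _ ?_, map_sub, map_ofNat]
    intro h3
    rw [Complex.arg_eq_pi_iff] at h3
    linarith [h.re, h3.1]
  unfold V
  rw [h1, Complex.log_conj _ ?_, ← Complex.exp_conj, map_div₀, map_ofNat]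
  intro h3
  rw [Complex.arg_eq_pi_iff] at h3
  linarith [h.S_re_ge, h3.1]

end

lemma y_conj (v : ℂ) : y (conj v) = conj (y v) := by
  unfold y
  rw [map_add, map_mul, map_ofNat, ← Complex.cos_conj, map_pow]

lemma be_conj (v : ℂ) : be (conj v) = conj (be v) := by
  unfold be
  rw [map_add, map_div₀, map_mul, map_ofNat, ← Complex.sin_conj, map_pow]

/-- `H` as a function of `v` -/
noncomputable def Hv (v : ℂ) : ℂ := y v ^ 4 * exp (I * ((4 / 7 : ℝ) * be v))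

/-- the derivative -/
noncomputable def Hv' (v : ℂ) : ℂ :=
  (4 * y v ^ 3 * y' v + I * (4 / 7) * be' v * y v ^ 4) * exp (I * ((4 / 7 : ℝ) * be v))

/-- `Λ` as a function of `v` -/
noncomputable def Lv (v : ℂ) : ℂ := exp (I * ((3 / 7 : ℝ) * be v)) / y v ^ 3

/-- the derivative -/
noncomputable def Lv' (v : ℂ) : ℂ :=
  (I * (3 / 7) * be' v / y v ^ 3 - 3 * y' v / y v ^ 4) * exp (I * ((3 / 7 : ℝ) * be v))

/-- `F` as a function of `v` -/
noncomputable def Fv (v : ℂ) : ℂ := y v ^ 7 * exp (I * be v)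

lemma Good.Hv_deriv {v : ℂ} (h : Good v) : HasDerivAt Hv (Hv' v) v := by
  have h1 := (hasDerivAt_y v).pow 4
  have h2 := (((hasDerivAt_be h.ne).const_mul ((4 / 7 : ℝ) : ℂ)).const_mul I).cexp
  have h3 := h1.mul h2
  have e1 : Hv' v = ((4 : ℕ) : ℂ) * y v ^ (4 - 1) * y' v * exp (I * ((4 / 7 : ℝ) * be v)) +
      y v ^ 4 * (exp (I * ((4 / 7 : ℝ) * be v)) * (I * (((4 / 7 : ℝ) : ℂ) * be' v))) := by
    unfold Hv'
    push_cast
    ring
  rw [e1]
  exact h3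

lemma Good.Lv_deriv {v : ℂ} (h : Good v) : HasDerivAt Lv (Lv' v) v := by
  have h1 := (hasDerivAt_y v).pow 3
  have h2 := (((hasDerivAt_be h.ne).const_mul ((3 / 7 : ℝ) : ℂ)).const_mul I).cexp
  have h3 := h2.div h1 (pow_ne_zero 3 h.y_ne)
  have hy := h.y_ne
  have e1 : Lv' v = (exp (I * ((3 / 7 : ℝ) * be v)) * (I * (((3 / 7 : ℝ) : ℂ) * be' v)) * y v ^ 3 -
      exp (I * ((3 / 7 : ℝ) * be v)) * (((3 : ℕ) : ℂ) * y v ^ (3 - 1) * y' v)) / (y v ^ 3) ^ 2 := by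
    unfold Lv'
    push_cast
    field_simp
  rw [e1]
  exact h3

lemma Good.Hv'_le {v : ℂ} (h : Good v) : ‖Hv' v‖ ≤ 10000 * ‖v‖ ^ 5 := by
  have hp := h.pos
  have h1 := h.y_le
  have h2 := h.y'_le
  have h3 := h.be'_le
  have h4 : ‖exp (I * ((4 / 7 : ℝ) * be v))‖ ≤ 3 := h.exp_le (by norm_num) (by norm_num)
  unfold Hv'
  rw [norm_mul]
  have h5 : ‖4 * y v ^ 3 * y' v + I * (4 / 7) * be' v * y v ^ 4‖ ≤ 3200 * ‖v‖ ^ 5 := by
    refine (norm_add_le _ _).trans ?_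
    have e1 : ‖(4 / 7 : ℂ)‖ = 4 / 7 := by norm_num
    rw [norm_mul, norm_mul, norm_mul, norm_mul, norm_mul, norm_pow, norm_pow, Complex.norm_I,
      Complex.norm_ofNat, e1, one_mul]
    calc 4 * ‖y v‖ ^ 3 * ‖y' v‖ + 4 / 7 * ‖be' v‖ * ‖y v‖ ^ 4
        ≤ 4 * (4 * ‖v‖) ^ 3 * (10 * ‖v‖ ^ 2) + 4 / 7 * (4 * ‖v‖) * (4 * ‖v‖) ^ 4 := by gcongr
      _ ≤ 3200 * ‖v‖ ^ 5 := by
          have : 0 ≤ ‖v‖ ^ 5 := by positivity
          nlinarith
  calc _ ≤ 3200 * ‖v‖ ^ 5 * 3 := by gcongr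
    _ ≤ _ := by
        have : 0 ≤ ‖v‖ ^ 5 := by positivity
        nlinarith

lemma Good.Lv'_le {v : ℂ} (h : Good v) : ‖Lv' v‖ ≤ 12 / ‖v‖ ^ 2 := by
  have hp := h.pos
  have h1 := h.y_ge
  have h2 := h.y'_le
  have h3 := h.be'_le
  have h4 : ‖exp (I * ((3 / 7 : ℝ) * be v))‖ ≤ 3 := h.exp_le (by norm_num) (by norm_num)
  unfold Lv'
  rw [norm_mul]
  have h5 : ‖I * (3 / 7) * be' v / y v ^ 3 - 3 * y' v / y v ^ 4‖ ≤ 4 / ‖v‖ ^ 2 := by
    refine (norm_sub_le _ _).trans ?_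
    have e1 : ‖(3 / 7 : ℂ)‖ = 3 / 7 := by norm_num
    rw [norm_div, norm_div, norm_mul, norm_mul, norm_mul, norm_pow, norm_pow, Complex.norm_I,
      Complex.norm_ofNat, e1, one_mul]
    calc 3 / 7 * ‖be' v‖ / ‖y v‖ ^ 3 + 3 * ‖y' v‖ / ‖y v‖ ^ 4
        ≤ 3 / 7 * (4 * ‖v‖) / (2 * ‖v‖) ^ 3 + 3 * (10 * ‖v‖ ^ 2) / (2 * ‖v‖) ^ 4 := by gcongr
      _ = (12 / 56 + 30 / 16) / ‖v‖ ^ 2 := by
          field_simp
          norm_num
      _ ≤ 4 / ‖v‖ ^ 2 := by gcongr; norm_num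
  calc _ ≤ 4 / ‖v‖ ^ 2 * 3 := by gcongr
    _ = _ := by ring

/-- the product of `Λ` and the derivative of `H` -/
lemma Good.LH {v : ℂ} (h : Good v) : Lv v * Hv' v = (4 / 7) * f0 v := by
  have hy := h.y_ne
  unfold Lv Hv' f0
  have e1 : exp (I * be v) = exp (I * ((3 / 7 : ℝ) * be v)) * exp (I * ((4 / 7 : ℝ) * be v)) := by
    rw [← Complex.exp_add]
    congr 1
    push_cast
    ring
  rw [e1]
  field_simp

/-- `H` -/
noncomputable def H (z : ℂ) : ℂ := Hv (V z)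

/-- `Λ` -/
noncomputable def L (z : ℂ) : ℂ := Lv (V z)

/-- `F` -/
noncomputable def F (z : ℂ) : ℂ := Fv (V z)

section

variable {z : ℂ}

lemma Dom.H_deriv (h : Dom z) : HasDerivAt H (Hv' (V z) * (1 / (6 * V z ^ 5 * (1 - z)))) z :=
  (h.good.Hv_deriv).comp z h.V_deriv

lemma Dom.L_deriv (h : Dom z) : HasDerivAt L (Lv' (V z) * (1 / (6 * V z ^ 5 * (1 - z)))) z :=
  (h.good.Lv_deriv).comp z h.V_deriv

lemma Dom.F_diff (h : Dom z) : DifferentiableAt ℂ F z := by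
  have h1 : DifferentiableAt ℂ Fv (V z) := by
    unfold Fv
    exact ((hasDerivAt_y _).differentiableAt.pow 7).mul
      (((hasDerivAt_be h.good.ne).differentiableAt.const_mul I).cexp)
  exact DifferentiableAt.comp z h1 h.V_deriv.differentiableAt

lemma norm_V' (z : ℂ) : ‖1 / (6 * V z ^ 5 * (1 - z))‖ = 1 / (6 * ‖V z‖ ^ 5 * ‖1 - z‖) := by
  rw [norm_div, norm_mul, norm_mul, norm_pow, norm_one, Complex.norm_ofNat]

lemma Dom.H_le (h : Dom z) : ‖deriv H z‖ ≤ 2000 / ‖1 - z‖ := by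
  rw [h.H_deriv.deriv, norm_mul, norm_V']
  have h1 := h.good.Hv'_le
  have hp := h.pos
  have hN := h.good.pos
  calc ‖Hv' (V z)‖ * (1 / (6 * ‖V z‖ ^ 5 * ‖1 - z‖))
      ≤ 10000 * ‖V z‖ ^ 5 * (1 / (6 * ‖V z‖ ^ 5 * ‖1 - z‖)) := by gcongr
    _ = (10000 / 6) / ‖1 - z‖ := by field_simp
    _ ≤ 2000 / ‖1 - z‖ := by gcongr; norm_num

lemma Dom.L_le (h : Dom z) : ‖deriv L z‖ ≤ 2 * om ‖1 - z‖ / ‖1 - z‖ := by
  rw [h.L_deriv.deriv, norm_mul, norm_V']
  have h1 := h.good.Lv'_le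
  have hp := h.pos
  have hN := h.good.pos
  have h7 := h.N7
  calc ‖Lv' (V z)‖ * (1 / (6 * ‖V z‖ ^ 5 * ‖1 - z‖))
      ≤ 12 / ‖V z‖ ^ 2 * (1 / (6 * ‖V z‖ ^ 5 * ‖1 - z‖)) := by gcongr
    _ = 2 * (1 / ‖V z‖ ^ 7) / ‖1 - z‖ := by field_simp; norm_num
    _ ≤ 2 * om ‖1 - z‖ / ‖1 - z‖ := by gcongr

end

/-- the main data -/
theorem exists_dat : ∃ (K J : ℂ → ℂ) (M : ℝ), Dat L H K J 2 2000 ∧ ∀ z ∈ DD, ‖K z‖ ≤ M := by
  have hd : DifferentiableOn ℂ (fun z => L z * deriv H z) DD := by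
    have hH : DifferentiableOn ℂ H DD := fun z hz =>
      (dom_of hz).H_deriv.differentiableAt.differentiableWithinAt
    have hL : DifferentiableOn ℂ L DD := fun z hz =>
      (dom_of hz).L_deriv.differentiableAt.differentiableWithinAt
    exact hL.mul (hH.deriv isOpen_ball)
  obtain ⟨K, hK⟩ := hd.isExactOn_ball
  have hJ : ∀ z ∈ DD, HasDerivAt (fun z => L z * H z - K z) (deriv L z * H z) z := by
    intro z hz
    have h1 := (dom_of hz).L_deriv.differentiableAt.hasDerivAt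
    have h2 := (dom_of hz).H_deriv.differentiableAt.hasDerivAt
    have h3 := (h1.mul h2).sub (hK z hz)
    have e1 : deriv L z * H z = deriv L z * H z + L z * deriv H z - L z * deriv H z := by ring
    rw [e1]
    exact h3
  obtain ⟨P, P', C, hP⟩ := f0_bd
  have hC0 : 0 ≤ C := by
    have h0 : (0 : ℂ) ∈ DD := mem_ball_self one_pos
    exact (norm_nonneg _).trans (hP _ (dom_of h0).good).2.1
  obtain ⟨D, hD⟩ : ∃ D : ℂ → ℂ, D = fun z => K z - (4 / 7) * P (V z) := ⟨_, rfl⟩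
  have hDd : ∀ z ∈ DD, HasDerivAt D ((4 / 7) * (f0 (V z) - P' (V z)) * (1 / (6 * V z ^ 5 * (1 - z)))) z := by
    intro z hz
    have hz' := dom_of hz
    have h1 := ((hP _ hz'.good).1.comp z hz'.V_deriv).const_mul (4 / 7)
    have h2 := (hK z hz).sub h1
    have e1 : (4 / 7) * (f0 (V z) - P' (V z)) * (1 / (6 * V z ^ 5 * (1 - z))) =
        L z * deriv H z - 4 / 7 * (P' (V z) * (1 / (6 * V z ^ 5 * (1 - z)))) := by
      rw [hz'.H_deriv.deriv]
      have h3 := hz'.good.LH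
      unfold L
      linear_combination (-(1 / (6 * V z ^ 5 * (1 - z)))) * h3
    rw [e1, hD]
    exact h2
  have hDb : ∀ z ∈ DD, ‖deriv D z‖ ≤ C * om ‖1 - z‖ / ‖1 - z‖ := by
    intro z hz
    have hz' := dom_of hz
    rw [(hDd z hz).deriv, norm_mul, norm_mul, norm_V']
    have h1 := (hP _ hz'.good).2.2
    have hp := hz'.pos
    have hN := hz'.good.pos
    have h7 := hz'.N7
    have e1 : ‖(4 / 7 : ℂ)‖ = 4 / 7 := by norm_num
    rw [e1]
    calc 4 / 7 * ‖f0 (V z) - P' (V z)‖ * (1 / (6 * ‖V z‖ ^ 5 * ‖1 - z‖))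
        ≤ 4 / 7 * (C / ‖V z‖ ^ 2) * (1 / (6 * ‖V z‖ ^ 5 * ‖1 - z‖)) := by gcongr
      _ = (4 / 42) * (C * (1 / ‖V z‖ ^ 7) / ‖1 - z‖) := by field_simp; ring
      _ ≤ 1 * (C * om ‖1 - z‖ / ‖1 - z‖) := by gcongr; norm_num
      _ = _ := one_mul _
  refine ⟨K, fun z => L z * H z - K z, ‖D 0‖ + 9 * C, ⟨by norm_num, by norm_num,
    fun z hz => (dom_of hz).L_deriv.differentiableAt,
    fun z hz => (dom_of hz).H_deriv.differentiableAt, hK, hJ, fun z _ => by ring,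
    fun z hz => (dom_of hz).L_le, fun z hz => (dom_of hz).H_le⟩, fun z hz => ?_⟩
  have h1 := path_bound hC0 (fun t ht => (hDd t ht).differentiableAt) hDb hz
  have h2 : K z = (D z - D 0) + D 0 + (4 / 7) * P (V z) := by
    rw [hD]
    ring
  have h3 := (hP _ (dom_of hz).good).2.1
  have e1 : ‖(4 / 7 : ℂ) * P (V z)‖ ≤ C := by
    rw [norm_mul]
    have : ‖(4 / 7 : ℂ)‖ = 4 / 7 := by norm_num
    rw [this]
    nlinarith [norm_nonneg (P (V z))]
  rw [h2]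
  refine (norm_add_le _ _).trans ?_
  have := norm_add_le (D z - D 0) (D 0)
  linarith

end Pool.Agent.Helper89.BX
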