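import Mathlib

/-!
# Geometry of the disc near the point `1`

Paths along circles around the point `1`, functions whose derivative is controlled by the distance
from `1`, and the function `Λ(conj z) H(z) - K(z) - J(conj z)` with `K' = Λ H'`, `J' = Λ' H`.
-/

set_option autoImplicit false

namespace Pool.Agent.Helper89.BX

open Metric Set Filter Topology MeasureTheory Complex
open scoped ComplexConjugate

/-- the disc -/
abbrev DD : Set ℂ := ball (0 : ℂ) 1

/-- `X(r) = 10^7 + log (1/r)` -/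
noncomputable def X (r : ℝ) : ℝ := 10000000 - Real.log r

/-- the weight -/
noncomputable def om (r : ℝ) : ℝ := X r ^ (-(7 / 6) : ℝ)

lemma conj_mem {z : ℂ} (hz : z ∈ DD) : conj z ∈ DD := by
  rw [mem_ball_zero_iff] at hz ⊢
  rwa [Complex.norm_conj]

lemma norm_one_sub_conj (z : ℂ) : ‖1 - conj z‖ = ‖1 - z‖ := by
  rw [← Complex.norm_conj (1 - z)]
  simp

lemma one_sub_pos {z : ℂ} (hz : z ∈ DD) : 0 < ‖1 - z‖ := by
  rw [mem_ball_zero_iff] at hz
  have h := norm_sub_norm_le (1 : ℂ) z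
  rw [norm_one] at h
  linarith

lemma one_sub_lt {z : ℂ} (hz : z ∈ DD) : ‖1 - z‖ < 2 := by
  rw [mem_ball_zero_iff] at hz
  have h := norm_sub_le (1 : ℂ) z
  rw [norm_one] at h
  linarith

lemma one_sub_re {z : ℂ} (hz : z ∈ DD) : 0 < (1 - z).re := by
  rw [mem_ball_zero_iff] at hz
  have h := Complex.re_le_norm z
  simp only [sub_re, one_re]
  linarith

lemma real_mem {h : ℝ} (h0 : 0 < h) (h2 : h < 2) : ((1 - h : ℝ) : ℂ) ∈ DD := by
  rw [mem_ball_zero_iff, Complex.norm_real, Real.norm_eq_abs, abs_lt]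
  constructor <;> linarith

lemma X_ge {r : ℝ} (h0 : 0 < r) (h2 : r ≤ 2) : 9999999 ≤ X r := by
  unfold X
  have h1 := Real.log_le_sub_one_of_pos h0
  linarith

lemma X_anti {r s : ℝ} (h0 : 0 < r) (h : r ≤ s) : X s ≤ X r := by
  unfold X
  have := Real.log_le_log h0 h
  linarith

lemma om_pos {r : ℝ} (h0 : 0 < r) (h2 : r ≤ 2) : 0 < om r := by
  have := X_ge h0 h2
  unfold om
  positivity

lemma om_mono {r s : ℝ} (h0 : 0 < r) (h : r ≤ s) (h2 : s ≤ 2) : om r ≤ om s := by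
  unfold om
  have h1 := X_ge (h0.trans_le h) h2
  exact Real.rpow_le_rpow_of_nonpos (by linarith) (X_anti h0 h) (by norm_num)

lemma om_le_one {r : ℝ} (h0 : 0 < r) (h2 : r ≤ 2) : om r ≤ 1 := by
  have := X_ge h0 h2
  unfold om
  exact Real.rpow_le_one_of_one_le_of_nonpos (by linarith) (by norm_num)

lemma om_double {r s : ℝ} (h0 : 0 < r) (hs : s ≤ 2) (h : s ≤ 2 * r) : om s ≤ 3 * om r ∨ s < r := by
  rcases lt_or_ge s r with h1 | h1
  · exact Or.inr h1
  left
  have hr2 : r ≤ 2 := h1.trans hs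
  have hX := X_ge h0 hr2
  have hs0 : 0 < s := h0.trans_le h1
  have hXs := X_ge hs0 hs
  have h2 : X r ≤ 2 * X s := by
    have h3 : Real.log s ≤ Real.log (2 * r) := Real.log_le_log hs0 h
    rw [Real.log_mul (by norm_num) h0.ne'] at h3
    have h4 : Real.log 2 ≤ 1 := by
      have := Real.log_two_lt_d9
      linarith
    unfold X at *
    linarith
  unfold om
  have h3 : X s ^ (-(7 / 6) : ℝ) ≤ (X r / 2) ^ (-(7 / 6) : ℝ) :=
    Real.rpow_le_rpow_of_nonpos (by linarith) (by linarith) (by norm_num)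
  refine h3.trans ?_
  rw [Real.div_rpow (by linarith) (by norm_num), Real.rpow_neg (by norm_num : (0:ℝ) ≤ 2), div_inv_eq_mul]
  have h5 : (2 : ℝ) ^ (7 / 6 : ℝ) ≤ 3 := by
    have h6 : ((2 : ℝ) ^ (7 / 6 : ℝ)) ^ 6 = 2 ^ 7 := by
      rw [← Real.rpow_natCast, ← Real.rpow_mul (by norm_num)]
      norm_num
    by_contra hcon
    push Not at hcon
    have h7 : (3 : ℝ) ^ 6 < ((2 : ℝ) ^ (7 / 6 : ℝ)) ^ 6 := pow_lt_pow_left₀ hcon (by norm_num) (by norm_num)
    rw [h6] at h7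
    norm_num at h7
  have h8 : 0 < X r ^ (-(7 / 6) : ℝ) := Real.rpow_pos_of_pos (by linarith) _
  nlinarith

/-- the arc around `1` from the real point `1 - h` to `z` -/
noncomputable def arc (z : ℂ) (t : ℝ) : ℂ := 1 - (‖1 - z‖ : ℂ) * exp ((t * arg (1 - z) : ℝ) * I)

lemma arc_zero (z : ℂ) : arc z 0 = ((1 - ‖1 - z‖ : ℝ) : ℂ) := by
  unfold arc
  simp

lemma arc_one (z : ℂ) : arc z 1 = z := by
  unfold arc
  rw [one_mul, norm_mul_exp_arg_mul_I]
  ring

lemma arc_norm (z : ℂ) (t : ℝ) : ‖1 - arc z t‖ = ‖1 - z‖ := by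
  unfold arc
  rw [sub_sub_cancel, norm_mul, Complex.norm_exp_ofReal_mul_I, mul_one, Complex.norm_real,
    norm_norm]

lemma arg_lt {z : ℂ} (hz : z ∈ DD) : |arg (1 - z)| < Real.pi / 2 := by
  rw [Complex.abs_arg_lt_pi_div_two_iff]
  exact Or.inl (one_sub_re hz)

lemma arc_mem {z : ℂ} (hz : z ∈ DD) {t : ℝ} (h0 : 0 ≤ t) (h1 : t ≤ 1) : arc z t ∈ DD := by
  have hh := one_sub_pos hz
  obtain ⟨a, ha⟩ : ∃ a, a = arg (1 - z) := ⟨_, rfl⟩
  obtain ⟨h, hhd⟩ : ∃ h, h = ‖1 - z‖ := ⟨_, rfl⟩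
  have hal := arg_lt hz
  rw [← ha] at hal
  rw [← hhd] at hh
  have hn : ∀ s : ℝ, ‖(1 : ℂ) - (h : ℂ) * exp ((s : ℝ) * I)‖ ^ 2 = 1 - 2 * h * Real.cos s + h ^ 2 := by
    intro s
    rw [← Complex.normSq_eq_norm_sq, Complex.normSq_apply]
    simp only [sub_re, one_re, sub_im, one_im, mul_re, ofReal_re, ofReal_im, zero_mul, sub_zero,
      mul_im, exp_ofReal_mul_I_re, exp_ofReal_mul_I_im]
    have := Real.sin_sq_add_cos_sq s
    nlinarith
  have hz1 : z = 1 - (h : ℂ) * exp ((a : ℝ) * I) := by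
    have := arc_one z
    unfold arc at this
    rw [one_mul] at this
    rw [hhd, ha]
    exact this.symm
  have h3 := hn a
  rw [← hz1] at h3
  have h4 := hn (t * a)
  rw [mem_ball_zero_iff] at hz ⊢
  have h5 : Real.cos a ≤ Real.cos (t * a) := by
    rw [← Real.cos_abs a, ← Real.cos_abs (t * a), abs_mul, abs_of_nonneg h0]
    apply Real.cos_le_cos_of_nonneg_of_le_pi
    · positivity
    · linarith [Real.pi_pos]
    · nlinarith [abs_nonneg a]
  have h6 : ‖arc z t‖ ^ 2 < 1 := by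
    have : arc z t = 1 - (h : ℂ) * exp ((t * a : ℝ) * I) := by
      unfold arc
      rw [hhd, ha]
    rw [this, h4]
    have h7 : ‖z‖ ^ 2 < 1 := by nlinarith [norm_nonneg z]
    rw [h3] at h7
    nlinarith
  nlinarith [norm_nonneg (arc z t)]

lemma arc_deriv (z : ℂ) (t : ℝ) :
    HasDerivAt (arc z) (-((‖1 - z‖ : ℂ) * (exp ((t * arg (1 - z) : ℝ) * I) * (arg (1 - z) * I)))) t := by
  unfold arc
  have h1 : HasDerivAt (fun s : ℝ => ((s * arg (1 - z) : ℝ) : ℂ) * I) (((arg (1 - z) : ℝ) : ℂ) * I) t := by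
    have h2 : HasDerivAt (fun s : ℝ => s * arg (1 - z)) (arg (1 - z)) t := by
      simpa using (hasDerivAt_id t).mul_const (arg (1 - z))
    exact (h2.ofReal_comp).mul_const I
  have h2 := (h1.cexp).const_mul (‖1 - z‖ : ℂ)
  have h3 := h2.const_sub (1 : ℂ)
  exact h3

lemma arc_deriv_norm {z : ℂ} (hz : z ∈ DD) (t : ℝ) :
    ‖-((‖1 - z‖ : ℂ) * (exp ((t * arg (1 - z) : ℝ) * I) * (arg (1 - z) * I)))‖ ≤ 2 * ‖1 - z‖ := by
  rw [norm_neg, norm_mul, norm_mul, Complex.norm_exp_ofReal_mul_I, one_mul, norm_mul, norm_I, mul_one,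
    Complex.norm_real, norm_norm, Complex.norm_real, Real.norm_eq_abs]
  have h1 := arg_lt hz
  have h2 := Real.pi_lt_d2
  have h3 : |arg (1 - z)| ≤ 2 := by linarith
  nlinarith [norm_nonneg (1 - z)]

/-- a function with a bound of the derivative on the circle around `1` through `z` -/
lemma arc_bound {f : ℂ → ℂ} {z : ℂ} (hz : z ∈ DD) {M : ℝ}
    (hf : ∀ t ∈ DD, DifferentiableAt ℂ f t)
    (hM : ∀ t ∈ DD, ‖1 - t‖ = ‖1 - z‖ → ‖deriv f t‖ ≤ M) :
    ‖f z - f ((1 - ‖1 - z‖ : ℝ) : ℂ)‖ ≤ 2 * ‖1 - z‖ * M := by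
  have hM0 : 0 ≤ M := (norm_nonneg _).trans (hM z hz rfl)
  have h1 : ∀ t ∈ Icc (0 : ℝ) 1, HasDerivWithinAt (fun t => f (arc z t))
      (deriv f (arc z t) * (-((‖1 - z‖ : ℂ) * (exp ((t * arg (1 - z) : ℝ) * I) * (arg (1 - z) * I)))))
      (Icc 0 1) t := by
    intro t ht
    exact ((hf _ (arc_mem hz ht.1 ht.2)).hasDerivAt.comp t (arc_deriv z t)).hasDerivWithinAt
  have h2 : ∀ t ∈ Ico (0 : ℝ) 1, ‖deriv f (arc z t) *
      (-((‖1 - z‖ : ℂ) * (exp ((t * arg (1 - z) : ℝ) * I) * (arg (1 - z) * I))))‖ ≤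
      2 * ‖1 - z‖ * M := by
    intro t ht
    rw [norm_mul, mul_comm]
    exact mul_le_mul (arc_deriv_norm hz t) (hM _ (arc_mem hz ht.1 ht.2.le) (arc_norm z t))
      (norm_nonneg _) (by positivity)
  have h3 := norm_image_sub_le_of_norm_deriv_le_segment_01' h1 h2
  rwa [arc_one, arc_zero] at h3

/-- an integral along the real segment -/
lemma real_bound {f : ℂ → ℂ} {C : ℝ} (hC : 0 ≤ C) (hf : ∀ t ∈ DD, DifferentiableAt ℂ f t)
    (hM : ∀ t ∈ DD, ‖deriv f t‖ ≤ C * om ‖1 - t‖ / ‖1 - t‖) {h : ℝ} (h0 : 0 < h) (h2 : h < 2) :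
    ‖f ((1 - h : ℝ) : ℂ) - f 0‖ ≤ 6 * C := by
  have key : ∀ a b : ℝ, 0 < a → a ≤ b → b < 2 → ‖f ((1 - a : ℝ) : ℂ) - f ((1 - b : ℝ) : ℂ)‖ ≤ 6 * C := by
    intro a b ha hab hb
    have hB : ∀ x ∈ Icc (1 - b) (1 - a), HasDerivAt (fun x : ℝ => -(6 * C) * X (1 - x) ^ (-(1 / 6) : ℝ))
        (C * om (1 - x) / (1 - x)) x := by
      intro x hx
      have hx1 : 0 < 1 - x := by linarith [hx.2]
      have hx2 : 1 - x ≤ 2 := by linarith [hx.1]
      have hX := X_ge hx1 hx2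
      have e1 : HasDerivAt (fun x : ℝ => X (1 - x)) (1 / (1 - x)) x := by
        unfold X
        have e2 : HasDerivAt (fun x : ℝ => 1 - x) (-1) x := by
          simpa using (hasDerivAt_id x).const_sub 1
        have e3 := (e2.log hx1.ne').const_sub 10000000
        have e4 : 1 / (1 - x) = -(-1 / (1 - x)) := by ring
        rw [e4]
        exact e3
      have hXne : X (1 - x) ≠ 0 := by linarith
      have e4 := (e1.rpow_const (p := (-(1 / 6) : ℝ)) (Or.inl hXne)).const_mul (-(6 * C))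
      have e5 : C * om (1 - x) / (1 - x) =
          -(6 * C) * (1 / (1 - x) * (-(1 / 6)) * X (1 - x) ^ ((-(1 / 6) : ℝ) - 1)) := by
        unfold om
        rw [show (-(1 / 6) : ℝ) - 1 = -(7 / 6) by norm_num]
        ring
      rw [e5]
      exact e4
    have h4 := image_norm_le_of_norm_deriv_right_le_deriv_boundary' (a := 1 - b) (b := 1 - a)
      (f := fun x : ℝ => f ((x : ℝ) : ℂ) - f ((1 - b : ℝ) : ℂ)) (f' := fun x : ℝ => deriv f ((x : ℝ) : ℂ))
      (B := fun x : ℝ => -(6 * C) * X (1 - x) ^ (-(1 / 6) : ℝ) + (6 * C) * X b ^ (-(1 / 6) : ℝ))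
      (B' := fun x => C * om (1 - x) / (1 - x)) ?_ ?_ ?_ ?_ ?_ ?_
      (right_mem_Icc.2 (by linarith : 1 - b ≤ 1 - a))
    · refine h4.trans ?_
      have e1 : 0 ≤ X (1 - (1 - a)) ^ (-(1 / 6) : ℝ) := by
        rw [sub_sub_cancel]
        have := X_ge ha (by linarith)
        positivity
      have e2 : X b ^ (-(1 / 6) : ℝ) ≤ 1 := by
        have := X_ge (ha.trans_le hab) hb.le
        exact Real.rpow_le_one_of_one_le_of_nonpos (by linarith) (by norm_num)
      nlinarith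
    · intro x hx
      have hx1 : 0 < 1 - x := by linarith [hx.2]
      have hmem : ((x : ℝ) : ℂ) ∈ DD := by
        have := real_mem (h := 1 - x) hx1 (by linarith [hx.1])
        rwa [sub_sub_cancel] at this
      have h5 := (hf _ hmem).hasDerivAt.comp_ofReal
      exact (h5.sub_const _).continuousAt.continuousWithinAt
    · intro x hx
      have hx1 : 0 < 1 - x := by linarith [hx.2]
      have hmem : ((x : ℝ) : ℂ) ∈ DD := by
        have := real_mem (h := 1 - x) hx1 (by linarith [hx.1])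
        rwa [sub_sub_cancel] at this
      have h5 := (hf _ hmem).hasDerivAt.comp_ofReal
      exact (h5.sub_const _).hasDerivWithinAt
    · simp
    · intro x hx
      exact ((hB x hx).add_const _).continuousAt.continuousWithinAt
    · intro x hx
      exact ((hB x ⟨hx.1, hx.2.le⟩).add_const _).hasDerivWithinAt
    · intro x hx
      have hx1 : 0 < 1 - x := by linarith [hx.2]
      have hmem : ((x : ℝ) : ℂ) ∈ DD := by
        have := real_mem (h := 1 - x) hx1 (by linarith [hx.1])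
        rwa [sub_sub_cancel] at this
      have h6 := hM _ hmem
      have h7 : ‖1 - ((x : ℝ) : ℂ)‖ = 1 - x := by
        rw [← Complex.ofReal_one, ← Complex.ofReal_sub, Complex.norm_real, Real.norm_of_nonneg hx1.le]
      rwa [h7] at h6
  rcases le_total h 1 with h1 | h1
  · have := key h 1 h0 h1 (by norm_num)
    simpa using this
  · have := key 1 h (by norm_num) h1 h2
    rw [norm_sub_rev]
    simpa using this

/-- boundedness of functions with integrable derivative -/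
lemma path_bound {f : ℂ → ℂ} {C : ℝ} (hC : 0 ≤ C) (hf : ∀ t ∈ DD, DifferentiableAt ℂ f t)
    (hM : ∀ t ∈ DD, ‖deriv f t‖ ≤ C * om ‖1 - t‖ / ‖1 - t‖) {z : ℂ} (hz : z ∈ DD) :
    ‖f z - f 0‖ ≤ 8 * C := by
  have h0 := one_sub_pos hz
  have h2 := one_sub_lt hz
  have h3 := real_bound hC hf hM h0 h2
  have h4 := arc_bound hz hf (M := C * om ‖1 - z‖ / ‖1 - z‖) (by
    intro t ht h
    have := hM t ht
    rwa [h] at this)
  have h5 : 2 * ‖1 - z‖ * (C * om ‖1 - z‖ / ‖1 - z‖) = 2 * C * om ‖1 - z‖ := by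
    field_simp
  rw [h5] at h4
  have h6 := om_le_one h0 h2.le
  have h7 : ‖f z - f 0‖ ≤ ‖f z - f ((1 - ‖1 - z‖ : ℝ) : ℂ)‖ + ‖f ((1 - ‖1 - z‖ : ℝ) : ℂ) - f 0‖ :=
    norm_sub_le_norm_sub_add_norm_sub _ _ _
  nlinarith

end Pool.Agent.Helper89.BX
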