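import Pool.Agent.Helper89.BX.Proj

/-! # Analyticity of the projection and orthogonality -/

set_option autoImplicit false

namespace Pool.Agent.Helper89.BX

open Metric Set Filter Topology MeasureTheory Complex
open scoped ComplexConjugate

lemma PP_diff {R : ℂ → ℂ} (hR : ContinuousOn R DD) {M : ℝ} (hM : ∀ z ∈ DD, ‖R z‖ ≤ M) {z : ℂ}
    (hz : z ∈ DD) : DifferentiableAt ℂ (PP R) z := by
  have hfin := finDD
  have hz1 : ‖z‖ < 1 := by rwa [mem_ball_zero_iff] at hz
  have hM0 : 0 ≤ M := (norm_nonneg _).trans (hM z hz)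
  obtain ⟨d, hd⟩ : ∃ d, d = (1 - ‖z‖) / 2 := ⟨_, rfl⟩
  have hd0 : 0 < d := by rw [hd]; linarith
  have hnear : ∀ x ∈ ball z d, x ∈ DD ∧ d ≤ 1 - ‖x‖ := by
    intro x hx
    rw [mem_ball_iff_norm] at hx
    have h1 := norm_sub_norm_le x z
    rw [mem_ball_zero_iff]
    constructor <;> linarith
  have key := hasDerivAt_integral_of_dominated_loc_of_deriv_le (μ := volume.restrict DD)
    (F := fun x ζ => R ζ / (1 - x * conj ζ) ^ 2)
    (F' := fun x ζ => R ζ * (2 * conj ζ) / (1 - x * conj ζ) ^ 3) (x₀ := z) (s := ball z d)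
    (bound := fun _ => M * 2 / d ^ 3) (ball_mem_nhds z hd0) ?_ ?_ ?_ ?_ ?_ ?_
  · exact key.2.differentiableAt
  · filter_upwards [ball_mem_nhds z hd0] with x hx
    exact (hR.div (ker_cont x) fun ζ hζ => pow_ne_zero 2 (ker_ne (hnear x hx).1 hζ)).aestronglyMeasurable
      measurableSet_ball
  · exact integrable_ker hR hM hz
  · have hc : ContinuousOn (fun ζ => (1 - z * conj ζ) ^ 3) DD := by fun_prop
    have hc2 : ContinuousOn (fun ζ : ℂ => 2 * conj ζ) DD := by fun_prop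
    exact ((hR.mul hc2).div hc fun ζ hζ => pow_ne_zero 3 (ker_ne hz hζ)).aestronglyMeasurable
      measurableSet_ball
  · rw [ae_restrict_iff' measurableSet_ball]
    refine ae_of_all _ fun ζ hζ x hx => ?_
    obtain ⟨hx1, hx2⟩ := hnear x hx
    rw [norm_div, norm_pow, norm_mul, norm_mul, Complex.norm_conj]
    have h1 := ker_ge' (z := x) hζ
    have h2 : ‖(2 : ℂ)‖ = 2 := by simp
    rw [h2]
    have h3 : ‖ζ‖ ≤ 1 := by
      rw [mem_ball_zero_iff] at hζ
      exact hζ.le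
    have h4 := hM ζ hζ
    have h5 : d ≤ ‖1 - x * conj ζ‖ := by linarith
    have h6 : ‖R ζ‖ * (2 * ‖ζ‖) ≤ M * 2 := by
      nlinarith [norm_nonneg (R ζ), norm_nonneg ζ]
    gcongr
  · exact integrable_const _
  · rw [ae_restrict_iff' measurableSet_ball]
    refine ae_of_all _ fun ζ hζ x hx => ?_
    have hne := ker_ne (hnear x hx).1 hζ
    have h1 : HasDerivAt (fun x : ℂ => (1 - x * conj ζ) ^ 2)
        (2 * (1 - x * conj ζ) * (-conj ζ)) x := by
      have h2 : HasDerivAt (fun x : ℂ => 1 - x * conj ζ) (-conj ζ) x := by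
        simpa using ((hasDerivAt_id x).mul_const (conj ζ)).const_sub 1
      have h3 := h2.pow 2
      have e0 : 2 * (1 - x * conj ζ) * (-conj ζ) = ((2 : ℕ) : ℂ) * (1 - x * conj ζ) ^ (2 - 1) * -conj ζ := by
        push_cast
        ring
      rw [e0]
      exact h3
    have h2 := (hasDerivAt_const x (R ζ)).div h1 (pow_ne_zero 2 hne)
    have e : R ζ * (2 * conj ζ) / (1 - x * conj ζ) ^ 3 =
        (0 * (1 - x * conj ζ) ^ 2 - R ζ * (2 * (1 - x * conj ζ) * (-conj ζ))) /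
          ((1 - x * conj ζ) ^ 2) ^ 2 := by
      field_simp
      ring
    rw [e]
    exact h2

/-- a weight with a weak singularity at the circle -/
lemma weight_int : IntegrableOn (fun z : ℂ => (1 - ‖z‖) ^ (-(1 / 2) : ℝ)) DD := by
  have h0 : IntegrableOn (fun r : ℝ => (1 - r) ^ (-(1 / 2) : ℝ)) (Ioo 0 1) := by
    have h1 : IntervalIntegrable (fun x : ℝ => x ^ (-(1 / 2) : ℝ)) volume 0 1 :=
      intervalIntegral.intervalIntegrable_rpow' (by norm_num)
    have h2 := h1.comp_sub_left 1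
    rw [sub_zero, sub_self, intervalIntegrable_iff, uIoc_of_ge zero_le_one] at h2
    exact h2.mono_set Ioo_subset_Ioc_self
  have h1 : IntegrableOn (fun r : ℝ => r * (1 - r) ^ (-(1 / 2) : ℝ)) (Ioo 0 1) := by
    refine Integrable.mono' h0 ?_ ?_
    · exact (measurable_id.aestronglyMeasurable.mul h0.aestronglyMeasurable)
    · rw [ae_restrict_iff' measurableSet_Ioo]
      refine ae_of_all _ fun r hr => ?_
      have hp : 0 ≤ (1 - r) ^ (-(1 / 2) : ℝ) := Real.rpow_nonneg (by linarith [hr.2]) _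
      rw [Real.norm_of_nonneg (mul_nonneg hr.1.le hp)]
      nlinarith [hr.1, hr.2]
  have h2 := (rad measurableSet_Ioo (fun x hx => hx.1) h1).1
  refine (h2.integrableOn (s := DD)).congr ?_
  rw [EventuallyEq, ae_restrict_iff' measurableSet_ball]
  have hne : ∀ᵐ z : ℂ, z ≠ 0 := by
    rw [ae_iff]
    simp
  filter_upwards [hne] with z hz0 hz
  rw [mem_ball_zero_iff] at hz
  have hp := norm_pos_iff.2 hz0
  rw [indicator_of_mem (show ‖z‖ ∈ Ioo 0 1 from ⟨hp, hz⟩)]
  field_simp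

/-- Young's inequality -/
lemma young {a b : ℝ} (ha : 0 ≤ a) (hb : 0 ≤ b) : a * b ≤ a ^ (8 / 7 : ℝ) + b ^ (8 : ℝ) := by
  have h := Real.young_inequality_of_nonneg ha hb (p := 8 / 7) (q := 8)
    (Real.holderConjugate_iff.2 ⟨by norm_num, by norm_num⟩)
  have h1 : 0 ≤ a ^ (8 / 7 : ℝ) := by positivity
  have h2 : 0 ≤ b ^ (8 : ℝ) := by positivity
  have h3 : a ^ (8 / 7 : ℝ) / (8 / 7) ≤ a ^ (8 / 7 : ℝ) := by
    rw [div_le_iff₀ (by norm_num)]; linarith
  have h4 : b ^ (8 : ℝ) / 8 ≤ b ^ (8 : ℝ) := by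
    rw [div_le_iff₀ (by norm_num)]; linarith
  linarith

/-- products of a function in `L^(8/7)` and a function in `L^8` -/
lemma young_int {f g : ℂ → ℂ} (hf : ContinuousOn f DD) (hg : ContinuousOn g DD)
    (hfp : IntegrableOn (fun z => ‖f z‖ ^ (8 / 7 : ℝ)) DD)
    (hgp : IntegrableOn (fun z => ‖g z‖ ^ (8 : ℝ)) DD) :
    IntegrableOn (fun z => f z * g z) DD := by
  refine Integrable.mono' (hfp.add hgp) ((hf.mul hg).aestronglyMeasurable measurableSet_ball)
    (ae_of_all _ fun z => ?_)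
  rw [norm_mul]
  exact young (norm_nonneg _) (norm_nonneg _)

lemma f_int {f : ℂ → ℂ} (hf : ContinuousOn f DD)
    (hfp : IntegrableOn (fun z => ‖f z‖ ^ (8 / 7 : ℝ)) DD) : IntegrableOn f DD := by
  have hfin := finDD
  have := young_int (g := fun _ => 1) hf continuousOn_const hfp (by
    simp only [norm_one, Real.one_rpow]
    exact integrable_const _)
  simpa using this

/-- the logarithmic singularity is weaker than a power -/
lemma ker_int : ∃ C : ℝ, 0 ≤ C ∧ ∀ z ∈ DD,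
    ∫ ζ in DD, 1 / ‖1 - z * conj ζ‖ ^ 2 ≤ C * (1 - ‖z‖) ^ (-(1 / 16) : ℝ) := by
  have h0 : IntegrableOn (fun r : ℝ => r ^ (-(15 / 16) : ℝ)) (Ioo 0 2) := by
    have h1 : IntervalIntegrable (fun x : ℝ => x ^ (-(15 / 16) : ℝ)) volume 0 2 :=
      intervalIntegral.intervalIntegrable_rpow' (by norm_num)
    rw [intervalIntegrable_iff, uIoc_of_le (by norm_num)] at h1
    exact h1.mono_set Ioo_subset_Ioc_self
  have h1 := (rad measurableSet_Ioo (fun x hx => hx.1) h0).1
  have hnn : ∀ w : ℂ, 0 ≤ (Ioo (0 : ℝ) 2).indicator (fun r => r ^ (-(15 / 16) : ℝ) / r) ‖w‖ := by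
    intro w
    apply indicator_nonneg
    intro r hr
    have := hr.1
    positivity
  refine ⟨∫ w : ℂ, (Ioo (0 : ℝ) 2).indicator (fun r => r ^ (-(15 / 16) : ℝ) / r) ‖w‖,
    integral_nonneg hnn, fun z hz => ?_⟩
  have hz1 : ‖z‖ < 1 := by rwa [mem_ball_zero_iff] at hz
  have h2 := (h1.comp_sub_right z).mul_const ((1 - ‖z‖) ^ (-(1 / 16) : ℝ))
  rw [← integral_sub_right_eq_self (fun w : ℂ => (Ioo (0 : ℝ) 2).indicator
    (fun r => r ^ (-(15 / 16) : ℝ) / r) ‖w‖) z, ← integral_mul_const]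
  have hw : 0 ≤ (1 - ‖z‖) ^ (-(1 / 16) : ℝ) := Real.rpow_nonneg (by linarith) _
  refine le_trans ?_ (setIntegral_le_integral (s := DD) h2
    (ae_of_all _ fun ζ => mul_nonneg (hnn _) hw))
  refine integral_mono_of_nonneg (ae_of_all _ fun ζ => by simp only [Pi.zero_apply]; positivity)
    h2.integrableOn ?_
  rw [EventuallyLE, ae_restrict_iff' measurableSet_ball]
  have hne : ∀ᵐ ζ : ℂ, ζ ≠ z := by
    rw [ae_iff]
    simp
  filter_upwards [hne] with ζ hζ0 hζ
  have hp : 0 < ‖ζ - z‖ := norm_pos_iff.2 (sub_ne_zero.2 hζ0)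
  have hp2 : ‖ζ - z‖ < 2 := by
    have := norm_sub_le ζ z
    rw [mem_ball_zero_iff] at hζ
    linarith
  rw [indicator_of_mem (show ‖ζ - z‖ ∈ Ioo 0 2 from ⟨hp, hp2⟩)]
  have k1 := ker_ge hz hζ
  have k2 := ker_ge' (z := z) hζ
  obtain ⟨κ, hκ⟩ : ∃ κ, κ = ‖1 - z * conj ζ‖ := ⟨_, rfl⟩
  rw [← hκ] at k1 k2 ⊢
  have hκ0 : 0 < κ := hp.trans_le k1
  have e1 : 1 / κ ^ 2 = κ ^ (-(31 / 16) : ℝ) * κ ^ (-(1 / 16) : ℝ) := by
    rw [← Real.rpow_add hκ0]
    norm_num
  have e2 : ‖ζ - z‖ ^ (-(15 / 16) : ℝ) / ‖ζ - z‖ = ‖ζ - z‖ ^ (-(31 / 16) : ℝ) := by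
    nth_rewrite 2 [← Real.rpow_one ‖ζ - z‖]
    rw [← Real.rpow_sub hp]
    norm_num
  rw [e1, e2]
  have h5 : κ ^ (-(31 / 16) : ℝ) ≤ ‖ζ - z‖ ^ (-(31 / 16) : ℝ) :=
    Real.rpow_le_rpow_of_nonpos hp k1 (by norm_num)
  have h6 : κ ^ (-(1 / 16) : ℝ) ≤ (1 - ‖z‖) ^ (-(1 / 16) : ℝ) :=
    Real.rpow_le_rpow_of_nonpos (by linarith) k2 (by norm_num)
  gcongr

/-- the projection is symmetric -/
lemma PP_sym {R : ℂ → ℂ} (hR : ContinuousOn R DD) {M : ℝ} (hM : ∀ z ∈ DD, ‖R z‖ ≤ M) {f : ℂ → ℂ}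
    (hf : DifferentiableOn ℂ f DD) (hfp : IntegrableOn (fun z => ‖f z‖ ^ (8 / 7 : ℝ)) DD) :
    ∫ z in DD, f z * conj (PP R z) = Real.pi * ∫ z in DD, f z * conj (R z) := by
  have hfin := finDD
  have hM0 : 0 ≤ M := (norm_nonneg _).trans (hM 0 (mem_ball_self one_pos))
  have hfc := hf.continuousOn
  have hfi := f_int hfc hfp
  obtain ⟨C, hC0, hC⟩ := ker_int
  obtain ⟨Φ, hΦ⟩ : ∃ Φ : ℂ → ℂ → ℂ, Φ = fun z ζ => f z * (conj (R ζ) / (1 - conj z * ζ) ^ 2) :=
    ⟨_, rfl⟩
  have hkne : ∀ z ∈ DD, ∀ ζ ∈ DD, 1 - conj z * ζ ≠ 0 := by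
    intro z hz ζ hζ
    have h1 := ker_ne (conj_mem hz) (conj_mem hζ)
    rwa [Complex.conj_conj] at h1
  have hknorm : ∀ z ζ : ℂ, ‖1 - conj z * ζ‖ = ‖1 - z * conj ζ‖ := by
    intro z ζ
    rw [← Complex.norm_conj (1 - z * conj ζ)]
    simp
  -- measurability
  have hmeas : AEStronglyMeasurable (Function.uncurry Φ)
      ((volume.restrict DD).prod (volume.restrict DD)) := by
    rw [Measure.prod_restrict]
    apply ContinuousOn.aestronglyMeasurable _ (measurableSet_ball.prod measurableSet_ball)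
    rw [hΦ]
    have c1 : ContinuousOn (fun p : ℂ × ℂ => f p.1) (DD ×ˢ DD) :=
      hfc.comp continuousOn_fst fun p hp => hp.1
    have c2 : ContinuousOn (fun p : ℂ × ℂ => conj (R p.2)) (DD ×ˢ DD) :=
      Complex.continuous_conj.comp_continuousOn (hR.comp continuousOn_snd fun p hp => hp.2)
    have c3 : ContinuousOn (fun p : ℂ × ℂ => (1 - conj p.1 * p.2) ^ 2) (DD ×ˢ DD) := by fun_prop
    exact c1.mul (c2.div c3 fun p hp => pow_ne_zero 2 (hkne _ hp.1 _ hp.2))
  -- integrability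
  have hint : Integrable (Function.uncurry Φ) ((volume.restrict DD).prod (volume.restrict DD)) := by
    rw [integrable_prod_iff hmeas]
    constructor
    · rw [ae_restrict_iff' measurableSet_ball]
      refine ae_of_all _ fun z hz => ?_
      rw [hΦ]
      simp only [Function.uncurry_apply_pair]
      apply Integrable.const_mul
      have h1 := integrable_ker (R := fun ζ => R ζ) hR hM hz
      have h2 := (Complex.conjCLE.toContinuousLinearMap.integrable_comp h1)
      refine h2.congr (ae_of_all _ fun ζ => ?_)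
      simp
    · refine Integrable.mono' (g := fun z => M * C * (‖f z‖ ^ (8 / 7 : ℝ) + (1 - ‖z‖) ^ (-(1 / 2) : ℝ)))
        ((hfp.add weight_int).const_mul _) hmeas.norm.integral_prod_right' ?_
      rw [ae_restrict_iff' measurableSet_ball]
      refine ae_of_all _ fun z hz => ?_
      have hz1 : ‖z‖ < 1 := by rwa [mem_ball_zero_iff] at hz
      rw [Real.norm_of_nonneg (integral_nonneg fun ζ => norm_nonneg _)]
      rw [hΦ]
      simp only [Function.uncurry_apply_pair]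
      have h1 : ∫ ζ in DD, ‖f z * (conj (R ζ) / (1 - conj z * ζ) ^ 2)‖ ≤
          ∫ ζ in DD, ‖f z‖ * M * (1 / ‖1 - z * conj ζ‖ ^ 2) := by
        refine integral_mono_of_nonneg (ae_of_all _ fun ζ => norm_nonneg _) ?_ ?_
        · apply Integrable.const_mul
          have h2 := integrable_ker (R := fun _ => (1 : ℂ)) continuousOn_const (fun _ _ => le_rfl) hz
          refine h2.norm.congr (ae_of_all _ fun ζ => ?_)
          simp
        · rw [EventuallyLE, ae_restrict_iff' measurableSet_ball]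
          refine ae_of_all _ fun ζ hζ => ?_
          rw [norm_mul, norm_div, norm_pow, hknorm, Complex.norm_conj, mul_assoc, mul_one_div]
          gcongr
          exact hM ζ hζ
      refine h1.trans ?_
      rw [integral_const_mul]
      have h2 := hC z hz
      have hz2 : 0 < 1 - ‖z‖ := by linarith
      calc ‖f z‖ * M * ∫ ζ in DD, 1 / ‖1 - z * conj ζ‖ ^ 2
          ≤ ‖f z‖ * M * (C * (1 - ‖z‖) ^ (-(1 / 16) : ℝ)) := by gcongr
        _ = M * C * (‖f z‖ * (1 - ‖z‖) ^ (-(1 / 16) : ℝ)) := by ring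
        _ ≤ M * C * (‖f z‖ ^ (8 / 7 : ℝ) + ((1 - ‖z‖) ^ (-(1 / 16) : ℝ)) ^ (8 : ℝ)) := by
            have := young (norm_nonneg (f z)) (Real.rpow_nonneg hz2.le (-(1 / 16) : ℝ))
            gcongr
        _ = _ := by
            rw [← Real.rpow_mul hz2.le]
            norm_num
  have e1 : ∫ z in DD, f z * conj (PP R z) = ∫ z in DD, ∫ ζ in DD, Φ z ζ := by
    refine setIntegral_congr_fun measurableSet_ball fun z hz => ?_
    simp only [hΦ]
    rw [integral_const_mul]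
    congr 1
    unfold PP
    rw [← integral_conj]
    refine setIntegral_congr_fun measurableSet_ball fun ζ hζ => ?_
    simp
  have e2 : ∀ ζ ∈ DD, ∫ z in DD, Φ z ζ = Real.pi * (f ζ * conj (R ζ)) := by
    intro ζ hζ
    have h1 := Pool.Agent.X105.BE.repro hf hfi (a := ζ) (by rwa [mem_ball_zero_iff] at hζ)
    have h2 : ∫ z in DD, Φ z ζ = ∫ z in DD, conj (R ζ) * (f z / (1 - ζ * conj z) ^ 2) := by
      refine setIntegral_congr_fun measurableSet_ball fun z hz => ?_
      simp only [hΦ]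
      rw [mul_comm ζ (conj z)]
      ring
    rw [h2, integral_const_mul, h1]
    ring
  rw [e1, integral_integral_swap hint, ← integral_const_mul]
  exact setIntegral_congr_fun measurableSet_ball fun ζ hζ => e2 ζ hζ

end Pool.Agent.Helper89.BX
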