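import Pool.Agent.Helper89.BX.Rem
import Pool.Graph.R_pool_sql_team_seeded_64922ed1.X105.BE.Repro

/-! # The Bergman projection of the remainder is bounded -/

set_option autoImplicit false

namespace Pool.Agent.Helper89.BX

open Metric Set Filter Topology MeasureTheory Complex
open scoped ComplexConjugate

/-- integrals of radial functions -/
lemma rad {S : Set ℝ} (hS : MeasurableSet S) (hS0 : S ⊆ Ioi 0) {ψ : ℝ → ℝ}
    (hi : IntegrableOn ψ S) :
    Integrable (fun w : ℂ => S.indicator (fun r => ψ r / r) ‖w‖) ∧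
      ∫ w : ℂ, S.indicator (fun r => ψ r / r) ‖w‖ = 2 * Real.pi * ∫ r in S, ψ r := by
  have e : EqOn (fun y : ℝ => y ^ (Module.finrank ℝ ℂ - 1) • S.indicator (fun r => ψ r / r) y)
      (S.indicator ψ) (Ioi 0) := by
    intro y hy
    rw [mem_Ioi] at hy
    simp only [Complex.finrank_real_complex, smul_eq_mul]
    by_cases h : y ∈ S
    · rw [indicator_of_mem h, indicator_of_mem h]
      norm_num
      field_simp
    · rw [indicator_of_notMem h, indicator_of_notMem h, mul_zero]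
  constructor
  · rw [integrable_fun_norm_addHaar (μ := (volume : Measure ℂ))]
    rw [integrableOn_congr_fun e measurableSet_Ioi]
    exact (hi.integrable_indicator hS).integrableOn
  · rw [integral_fun_norm_addHaar (μ := (volume : Measure ℂ)) (S.indicator (fun r => ψ r / r)),
      setIntegral_congr_fun measurableSet_Ioi e, setIntegral_indicator hS,
      inter_eq_right.2 hS0]
    have hv : (volume : Measure ℂ).real (ball 0 1) = Real.pi := by
      rw [Measure.real, Complex.volume_ball]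
      simp
    rw [hv, Complex.finrank_real_complex]
    simp only [smul_eq_mul, nsmul_eq_mul]
    push_cast
    ring

lemma ker_ge {z ζ : ℂ} (hz : z ∈ DD) (hζ : ζ ∈ DD) : ‖ζ - z‖ ≤ ‖1 - z * conj ζ‖ := by
  rw [mem_ball_zero_iff] at hz hζ
  have h1 : ‖1 - z * conj ζ‖ ^ 2 - ‖ζ - z‖ ^ 2 = (1 - ‖z‖ ^ 2) * (1 - ‖ζ‖ ^ 2) := by
    simp only [← Complex.normSq_eq_norm_sq, Complex.normSq_apply]
    simp only [sub_re, one_re, mul_re, conj_re, conj_im, sub_im, one_im, mul_im]
    ring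
  have h2 : 0 ≤ (1 - ‖z‖ ^ 2) * (1 - ‖ζ‖ ^ 2) := by
    apply mul_nonneg <;> nlinarith [norm_nonneg z, norm_nonneg ζ]
  have h3 : ‖ζ - z‖ ^ 2 ≤ ‖1 - z * conj ζ‖ ^ 2 := by linarith
  exact (pow_le_pow_iff_left₀ (norm_nonneg _) (norm_nonneg _) two_ne_zero).1 h3

lemma ker_ge' {z ζ : ℂ} (hζ : ζ ∈ DD) : 1 - ‖z‖ ≤ ‖1 - z * conj ζ‖ := by
  rw [mem_ball_zero_iff] at hζ
  have h := norm_sub_norm_le (1 : ℂ) (z * conj ζ)
  rw [norm_one, norm_mul, Complex.norm_conj] at h
  nlinarith [norm_nonneg z]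

lemma ker_ne {z ζ : ℂ} (hz : z ∈ DD) (hζ : ζ ∈ DD) : 1 - z * conj ζ ≠ 0 := by
  have h := ker_ge' (z := z) hζ
  rw [mem_ball_zero_iff] at hz
  intro h0
  rw [h0, norm_zero] at h
  linarith

/-- the projection integral -/
noncomputable def PP (R : ℂ → ℂ) (z : ℂ) : ℂ := ∫ ζ in DD, R ζ / (1 - z * conj ζ) ^ 2

lemma ker_cont (z : ℂ) : ContinuousOn (fun ζ => (1 - z * conj ζ) ^ 2) DD := by
  fun_prop

lemma finDD : IsFiniteMeasure (volume.restrict DD) := ⟨by
  rw [Measure.restrict_apply_univ]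
  exact measure_ball_lt_top⟩

lemma integrable_ker {R : ℂ → ℂ} (hR : ContinuousOn R DD) {M : ℝ} (hM : ∀ z ∈ DD, ‖R z‖ ≤ M)
    {z : ℂ} (hz : z ∈ DD) : IntegrableOn (fun ζ => R ζ / (1 - z * conj ζ) ^ 2) DD := by
  have hz1 : ‖z‖ < 1 := by rwa [mem_ball_zero_iff] at hz
  have hM0 : 0 ≤ M := (norm_nonneg _).trans (hM z hz)
  have := finDD
  refine Integrable.of_bound (μ := volume.restrict DD) ?_ (M / (1 - ‖z‖) ^ 2) ?_
  · exact (hR.div (ker_cont z) fun ζ hζ => pow_ne_zero 2 (ker_ne hz hζ)).aestronglyMeasurable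
      measurableSet_ball
  · rw [ae_restrict_iff' measurableSet_ball]
    refine ae_of_all _ fun ζ hζ => ?_
    rw [norm_div, norm_pow]
    have h1 := ker_ge' (z := z) hζ
    have h2 : 0 < 1 - ‖z‖ := by linarith
    gcongr
    exact hM ζ hζ

lemma ker_one {z : ℂ} (hz : z ∈ DD) :
    ∫ ζ in DD, (1 : ℂ) / (1 - z * conj ζ) ^ 2 = (Real.pi : ℂ) := by
  have h := Pool.Agent.X105.BE.repro (k := fun _ => (1 : ℂ)) (differentiableOn_const 1)
    (integrableOn_const (measure_ball_lt_top).ne) (a := z) (by rwa [mem_ball_zero_iff] at hz)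
  rw [mul_one] at h
  exact h

section

variable {L H K J : ℂ → ℂ} {A B : ℝ}

/-- the majorant -/
noncomputable def maj (A B : ℝ) (z : ℂ) (ζ : ℂ) : ℝ :=
  48 * A * B * om ‖1 - z‖ / ‖1 - z‖ *
      (Ioc 0 (‖1 - z‖ / 2)).indicator (fun r => 1 / r) ‖ζ - z‖ +
    16 * A * B * om ‖1 - z‖ * (Ioo (‖1 - z‖ / 2) 2).indicator (fun r => r⁻¹ / r) ‖ζ - z‖ +
    144 * A * B * (Ioo 0 ‖1 - z‖).indicator (fun r => (r / ‖1 - z‖ ^ 2) / r) ‖ζ - 1‖ +
    144 * A * B * (Ico ‖1 - z‖ 2).indicator (fun r => (om r / r) / r) ‖ζ - 1‖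

lemma Dat.maj_le (h : Dat L H K J A B) {z ζ : ℂ} (hz : z ∈ DD) (hζ : ζ ∈ DD) :
    ‖(RR L H K J ζ - RR L H K J z) / (1 - z * conj ζ) ^ 2‖ ≤ maj A B z ζ := by
  have hA := h.A0
  have hB := h.B0
  have h0 := one_sub_pos hz
  have h2 := one_sub_lt hz
  have h0' := one_sub_pos hζ
  have h2' := one_sub_lt hζ
  have hom := om_pos h0 h2.le
  have hn1 : 0 ≤ (Ioc 0 (‖1 - z‖ / 2)).indicator (fun r => 1 / r) ‖ζ - z‖ := by
    apply indicator_nonneg
    intro r hr
    have := hr.1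
    positivity
  have hn2 : 0 ≤ (Ioo (‖1 - z‖ / 2) 2).indicator (fun r => r⁻¹ / r) ‖ζ - z‖ := by
    apply indicator_nonneg
    intro r hr
    have := hr.1
    have : 0 < r := by linarith
    positivity
  have hn3 : 0 ≤ (Ioo 0 ‖1 - z‖).indicator (fun r => (r / ‖1 - z‖ ^ 2) / r) ‖ζ - 1‖ := by
    apply indicator_nonneg
    intro r hr
    have := hr.1
    positivity
  have hn4 : 0 ≤ (Ico ‖1 - z‖ 2).indicator (fun r => (om r / r) / r) ‖ζ - 1‖ := by
    apply indicator_nonneg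
    intro r hr
    have h3 : 0 < r := by linarith [hr.1]
    have := om_pos h3 hr.2.le
    positivity
  rw [norm_div, norm_pow]
  have hk := ker_ge hz hζ
  rcases eq_or_ne ζ z with rfl | hne
  · rw [sub_self, norm_zero, zero_div]
    unfold maj
    positivity
  have hw : 0 < ‖ζ - z‖ := norm_pos_iff.2 (sub_ne_zero.2 hne)
  rcases le_or_gt ‖ζ - z‖ (‖1 - z‖ / 2) with hc | hc
  · have h3 := h.RR_lip hz hζ hc
    have e1 : (Ioc 0 (‖1 - z‖ / 2)).indicator (fun r => 1 / r) ‖ζ - z‖ = 1 / ‖ζ - z‖ :=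
      indicator_of_mem (show ‖ζ - z‖ ∈ Ioc 0 (‖1 - z‖ / 2) from ⟨hw, hc⟩) _
    have h4 : ‖RR L H K J ζ - RR L H K J z‖ / ‖1 - z * conj ζ‖ ^ 2 ≤
        48 * A * B * om ‖1 - z‖ / ‖1 - z‖ * (1 / ‖ζ - z‖) := by
      calc _ ≤ (48 * A * B * om ‖1 - z‖ / ‖1 - z‖ * ‖ζ - z‖) / ‖ζ - z‖ ^ 2 := by gcongr
        _ = _ := by field_simp
    unfold maj
    rw [e1]
    have : 0 ≤ 16 * A * B * om ‖1 - z‖ * (Ioo (‖1 - z‖ / 2) 2).indicator (fun r => r⁻¹ / r) ‖ζ - z‖ +
      144 * A * B * (Ioo 0 ‖1 - z‖).indicator (fun r => (r / ‖1 - z‖ ^ 2) / r) ‖ζ - 1‖ +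
      144 * A * B * (Ico ‖1 - z‖ 2).indicator (fun r => (om r / r) / r) ‖ζ - 1‖ := by positivity
    linarith
  · have hw2 : ‖ζ - z‖ < 2 := by
      have := norm_sub_le ζ z
      rw [mem_ball_zero_iff] at hz hζ
      linarith
    have e2 : (Ioo (‖1 - z‖ / 2) 2).indicator (fun r => r⁻¹ / r) ‖ζ - z‖ = ‖ζ - z‖⁻¹ / ‖ζ - z‖ :=
      indicator_of_mem (show ‖ζ - z‖ ∈ Ioo (‖1 - z‖ / 2) 2 from ⟨hc, hw2⟩) _
    have h3 : ‖RR L H K J z‖ / ‖1 - z * conj ζ‖ ^ 2 ≤
        16 * A * B * om ‖1 - z‖ * (‖ζ - z‖⁻¹ / ‖ζ - z‖) := by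
      calc _ ≤ (16 * A * B * om ‖1 - z‖) / ‖ζ - z‖ ^ 2 := by
            gcongr
            exact h.RR_le hz
        _ = _ := by field_simp
    have hsum : ‖1 - ζ‖ ≤ ‖1 - z‖ + ‖ζ - z‖ := by
      have : 1 - ζ = (1 - z) - (ζ - z) := by ring
      rw [this]
      exact norm_sub_le _ _
    have h5 : ‖RR L H K J ζ‖ / ‖1 - z * conj ζ‖ ^ 2 ≤
        144 * A * B * (Ioo 0 ‖1 - z‖).indicator (fun r => (r / ‖1 - z‖ ^ 2) / r) ‖ζ - 1‖ +
        144 * A * B * (Ico ‖1 - z‖ 2).indicator (fun r => (om r / r) / r) ‖ζ - 1‖ := by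
      have hR := h.RR_le hζ
      have hom' := om_pos h0' h2'.le
      rw [norm_sub_rev ζ 1]
      rcases lt_or_ge ‖1 - ζ‖ ‖1 - z‖ with hc2 | hc2
      · have e3 : (Ioo 0 ‖1 - z‖).indicator (fun r => (r / ‖1 - z‖ ^ 2) / r) ‖1 - ζ‖ =
            (‖1 - ζ‖ / ‖1 - z‖ ^ 2) / ‖1 - ζ‖ := indicator_of_mem (show ‖1 - ζ‖ ∈ Ioo 0 ‖1 - z‖ from ⟨h0', hc2⟩) _
        have e4 : (Ico ‖1 - z‖ 2).indicator (fun r => (om r / r) / r) ‖1 - ζ‖ = 0 :=
          indicator_of_notMem (fun h => absurd h.1 (not_le.2 hc2)) _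
        rw [e3, e4, mul_zero, add_zero]
        have h6 := om_le_one h0' h2'.le
        calc _ ≤ (16 * A * B * 1) / (‖1 - z‖ / 3) ^ 2 := by
              have h7 : ‖1 - z‖ / 3 ≤ ‖1 - z * conj ζ‖ := by linarith
              have h8 : ‖RR L H K J ζ‖ ≤ 16 * A * B * 1 := hR.trans (by gcongr)
              gcongr
          _ = _ := by
              field_simp
              ring
      · have e3 : (Ioo 0 ‖1 - z‖).indicator (fun r => (r / ‖1 - z‖ ^ 2) / r) ‖1 - ζ‖ = 0 :=
          indicator_of_notMem (fun h => absurd h.2 (not_lt.2 hc2)) _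
        have e4 : (Ico ‖1 - z‖ 2).indicator (fun r => (om r / r) / r) ‖1 - ζ‖ =
            (om ‖1 - ζ‖ / ‖1 - ζ‖) / ‖1 - ζ‖ := indicator_of_mem (show ‖1 - ζ‖ ∈ Ico ‖1 - z‖ 2 from ⟨hc2, h2'⟩) _
        rw [e3, e4, mul_zero, zero_add]
        calc _ ≤ (16 * A * B * om ‖1 - ζ‖) / (‖1 - ζ‖ / 3) ^ 2 := by
              have h7 : ‖1 - ζ‖ / 3 ≤ ‖1 - z * conj ζ‖ := by linarith
              gcongr
          _ = _ := by
              field_simp
              ring
    have h6 : ‖RR L H K J ζ - RR L H K J z‖ / ‖1 - z * conj ζ‖ ^ 2 ≤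
        ‖RR L H K J ζ‖ / ‖1 - z * conj ζ‖ ^ 2 + ‖RR L H K J z‖ / ‖1 - z * conj ζ‖ ^ 2 := by
      rw [← add_div]
      gcongr
      exact norm_sub_le _ _
    have h7 : 0 ≤ 48 * A * B * om ‖1 - z‖ / ‖1 - z‖ *
      (Ioc 0 (‖1 - z‖ / 2)).indicator (fun r => 1 / r) ‖ζ - z‖ := by positivity
    unfold maj
    rw [e2]
    linarith

lemma int_om {h : ℝ} (h0 : 0 < h) (h2 : h < 2) :
    IntegrableOn (fun r => om r / r) (Ico h 2) ∧ ∫ r in Ico h 2, om r / r ≤ 6 := by
  have hd : ∀ x ∈ uIcc h 2, HasDerivAt (fun r => 6 * X r ^ (-(1 / 6) : ℝ)) (om x / x) x := by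
    intro x hx
    rw [uIcc_of_le h2.le] at hx
    have hx0 : 0 < x := h0.trans_le hx.1
    have hX := X_ge hx0 hx.2
    have e1 : HasDerivAt X (-x⁻¹) x := by
      unfold X
      exact (Real.hasDerivAt_log hx0.ne').const_sub _
    have e4 := (e1.rpow_const (p := (-(1 / 6) : ℝ)) (Or.inl (by linarith))).const_mul 6
    have e5 : om x / x = 6 * (-x⁻¹ * (-(1 / 6)) * X x ^ ((-(1 / 6) : ℝ) - 1)) := by
      unfold om
      rw [show (-(1 / 6) : ℝ) - 1 = -(7 / 6) by norm_num]
      field_simp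
    rw [e5]
    exact e4
  have hc : ContinuousOn (fun r => om r / r) (Icc h 2) := by
    intro x hx
    have hx0 : 0 < x := h0.trans_le hx.1
    have hX := X_ge hx0 hx.2
    have e1 : ContinuousAt X x := by
      unfold X
      exact continuousAt_const.sub (Real.continuousAt_log hx0.ne')
    have e2 : ContinuousAt om x := by
      unfold om
      exact e1.rpow_const (Or.inl (by linarith))
    exact (e2.div continuousAt_id hx0.ne').continuousWithinAt
  have hi : IntegrableOn (fun r => om r / r) (Icc h 2) := hc.integrableOn_compact isCompact_Icc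
  refine ⟨hi.mono_set Ico_subset_Icc_self, ?_⟩
  rw [integral_Ico_eq_integral_Ioc, ← intervalIntegral.integral_of_le h2.le,
    intervalIntegral.integral_eq_sub_of_hasDerivAt hd (by
      rw [intervalIntegrable_iff_integrableOn_Ioc_of_le h2.le]
      exact hi.mono_set Ioc_subset_Icc_self)]
  have hX2 := X_ge (r := 2) (by norm_num) le_rfl
  have hXh := X_ge h0 h2.le
  have e1 : X 2 ^ (-(1 / 6) : ℝ) ≤ 1 := Real.rpow_le_one_of_one_le_of_nonpos (by linarith) (by norm_num)
  have e2 : 0 ≤ X h ^ (-(1 / 6) : ℝ) := by positivity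
  linarith

lemma maj_int {A B : ℝ} (hA : 0 ≤ A) (hB : 0 ≤ B) {z : ℂ} (hz : z ∈ DD) :
    Integrable (maj A B z) ∧ ∫ ζ, maj A B z ζ ≤ 2000 * Real.pi * A * B := by
  have h0 := one_sub_pos hz
  have h2 := one_sub_lt hz
  have hom := om_pos h0 h2.le
  obtain ⟨h, hh⟩ : ∃ h, h = ‖1 - z‖ := ⟨_, rfl⟩
  unfold maj
  rw [← hh] at h0 h2 hom ⊢
  have i1 := rad (S := Ioc 0 (h / 2)) measurableSet_Ioc (fun x hx => hx.1) (ψ := fun _ => 1)
    (integrableOn_const (by simp))
  have i2 := rad (S := Ioo (h / 2) 2) measurableSet_Ioo (fun x hx => by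
    have := hx.1
    rw [mem_Ioi]
    linarith) (ψ := fun r => r⁻¹) (by
      have hc : ContinuousOn (fun r : ℝ => r⁻¹) (Icc (h / 2) 2) := by
        intro x hx
        have : x ≠ 0 := by
          have := hx.1
          linarith
        exact (continuousAt_inv₀ this).continuousWithinAt
      exact (hc.integrableOn_compact isCompact_Icc).mono_set Ioo_subset_Icc_self)
  have i3 := rad (S := Ioo 0 h) measurableSet_Ioo (fun x hx => hx.1) (ψ := fun r => r / h ^ 2) (by
      have hc : Continuous (fun r : ℝ => r / h ^ 2) := by fun_prop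
      exact (hc.continuousOn.integrableOn_compact isCompact_Icc).mono_set Ioo_subset_Icc_self)
  have i4' := int_om h0 h2
  have i4 := rad (S := Ico h 2) measurableSet_Ico (fun x hx => h0.trans_le hx.1)
    (ψ := fun r => om r / r) i4'.1
  have j1 := i1.1.comp_sub_right z
  have j2 := i2.1.comp_sub_right z
  have j3 := i3.1.comp_sub_right 1
  have j4 := i4.1.comp_sub_right 1
  have k1 : ∫ ζ : ℂ, (Ioc 0 (h / 2)).indicator (fun r => 1 / r) ‖ζ - z‖ = Real.pi * h := by
    rw [integral_sub_right_eq_self (fun w : ℂ => (Ioc 0 (h / 2)).indicator (fun r => 1 / r) ‖w‖) z,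
      i1.2]
    rw [setIntegral_const, Measure.real, Real.volume_Ioc, ENNReal.toReal_ofReal (by linarith)]
    simp only [smul_eq_mul]
    ring
  have k2 : ∫ ζ : ℂ, (Ioo (h / 2) 2).indicator (fun r => r⁻¹ / r) ‖ζ - z‖ =
      2 * Real.pi * Real.log (4 / h) := by
    rw [integral_sub_right_eq_self (fun w : ℂ => (Ioo (h / 2) 2).indicator (fun r => r⁻¹ / r) ‖w‖) z,
      i2.2, ← integral_Ioc_eq_integral_Ioo, ← intervalIntegral.integral_of_le (by linarith),
      integral_inv_of_pos (by linarith) (by norm_num)]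
    congr 2
    field_simp
    norm_num
  have k3 : ∫ ζ : ℂ, (Ioo 0 h).indicator (fun r => (r / h ^ 2) / r) ‖ζ - 1‖ = Real.pi := by
    rw [integral_sub_right_eq_self (fun w : ℂ => (Ioo 0 h).indicator (fun r => (r / h ^ 2) / r) ‖w‖) 1,
      i3.2, ← integral_Ioc_eq_integral_Ioo, ← intervalIntegral.integral_of_le h0.le,
      intervalIntegral.integral_div, integral_id]
    field_simp
    ring
  have k4 : ∫ ζ : ℂ, (Ico h 2).indicator (fun r => (om r / r) / r) ‖ζ - 1‖ ≤ 12 * Real.pi := by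
    rw [integral_sub_right_eq_self (fun w : ℂ => (Ico h 2).indicator (fun r => (om r / r) / r) ‖w‖) 1,
      i4.2]
    nlinarith [i4'.2, Real.pi_pos]
  have l1 := j1.const_mul (48 * A * B * om h / h)
  have l2 := j2.const_mul (16 * A * B * om h)
  have l3 := j3.const_mul (144 * A * B)
  have l4 := j4.const_mul (144 * A * B)
  refine ⟨((l1.add l2).add l3).add l4, ?_⟩
  have l12 : Integrable (fun ζ : ℂ => 48 * A * B * om h / h *
      (Ioc 0 (h / 2)).indicator (fun r => 1 / r) ‖ζ - z‖ +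
      16 * A * B * om h * (Ioo (h / 2) 2).indicator (fun r => r⁻¹ / r) ‖ζ - z‖) := l1.add l2
  have l123 : Integrable (fun ζ : ℂ => 48 * A * B * om h / h *
      (Ioc 0 (h / 2)).indicator (fun r => 1 / r) ‖ζ - z‖ +
      16 * A * B * om h * (Ioo (h / 2) 2).indicator (fun r => r⁻¹ / r) ‖ζ - z‖ +
      144 * A * B * (Ioo 0 h).indicator (fun r => (r / h ^ 2) / r) ‖ζ - 1‖) := l12.add l3
  rw [integral_add l123 l4, integral_add l12 l3, integral_add l1 l2, integral_const_mul,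
    integral_const_mul, integral_const_mul, integral_const_mul, k1, k2, k3]
  have hX := X_ge h0 h2.le
  have hlog : Real.log (4 / h) ≤ X h := by
    unfold X
    rw [Real.log_div (by norm_num) h0.ne']
    have : Real.log 4 ≤ 4 - 1 := Real.log_le_sub_one_of_pos (by norm_num)
    linarith
  have hol : om h * Real.log (4 / h) ≤ 1 := by
    have h5 : om h * X h = X h ^ (-(1 / 6) : ℝ) := by
      unfold om
      nth_rewrite 2 [← Real.rpow_one (X h)]
      rw [← Real.rpow_add (by linarith)]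
      norm_num
    have h6 : X h ^ (-(1 / 6) : ℝ) ≤ 1 :=
      Real.rpow_le_one_of_one_le_of_nonpos (by linarith) (by norm_num)
    nlinarith
  have ho1 := om_le_one h0 h2.le
  have hAB : 0 ≤ A * B := mul_nonneg hA hB
  have hpi := Real.pi_pos
  have hABpi : 0 ≤ A * B * Real.pi := by positivity
  have e1 : 48 * A * B * om h / h * (Real.pi * h) = 48 * (A * B * Real.pi) * om h := by
    field_simp
  have e2 : 16 * A * B * om h * (2 * Real.pi * Real.log (4 / h)) =
      32 * (A * B * Real.pi) * (om h * Real.log (4 / h)) := by ring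
  rw [e1, e2]
  have e3 : 144 * A * B * ∫ ζ : ℂ, (Ico h 2).indicator (fun r => (om r / r) / r) ‖ζ - 1‖ ≤
      144 * A * B * (12 * Real.pi) := by gcongr
  nlinarith

/-- the projection of the remainder is bounded -/
lemma Dat.PP_le (h : Dat L H K J A B) {z : ℂ} (hz : z ∈ DD) :
    ‖PP (RR L H K J) z‖ ≤ 2016 * Real.pi * A * B := by
  have hA := h.A0
  have hB := h.B0
  have h0 := one_sub_pos hz
  have h2 := one_sub_lt hz
  have hpi := Real.pi_pos
  have hRb : ∀ w ∈ DD, ‖RR L H K J w‖ ≤ 16 * A * B := by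
    intro w hw
    refine (h.RR_le hw).trans ?_
    have := om_le_one (one_sub_pos hw) (one_sub_lt hw).le
    have hAB : 0 ≤ A * B := mul_nonneg hA hB
    nlinarith
  have i1 := integrable_ker h.RR_cont hRb hz
  have i2 : IntegrableOn (fun ζ => RR L H K J z / (1 - z * conj ζ) ^ 2) DD :=
    integrable_ker (R := fun _ => RR L H K J z) continuousOn_const (fun _ _ => le_rfl) hz
  have e1 : PP (RR L H K J) z = (∫ ζ in DD, (RR L H K J ζ - RR L H K J z) / (1 - z * conj ζ) ^ 2) +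
      RR L H K J z * Real.pi := by
    have e2 : RR L H K J z * Real.pi = ∫ ζ in DD, RR L H K J z / (1 - z * conj ζ) ^ 2 := by
      rw [← ker_one hz, ← integral_const_mul]
      congr 1
      ext ζ
      ring
    rw [e2, ← integral_add]
    · unfold PP
      congr 1
      ext ζ
      ring
    · have := i1.sub i2
      refine this.congr (ae_of_all _ fun ζ => ?_)
      simp only [Pi.sub_apply]
      ring
    · exact i2
  rw [e1]
  obtain ⟨m1, m2⟩ := maj_int hA hB hz
  have e3 : ‖∫ ζ in DD, (RR L H K J ζ - RR L H K J z) / (1 - z * conj ζ) ^ 2‖ ≤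
      2000 * Real.pi * A * B := by
    refine (norm_integral_le_of_norm_le (g := maj A B z) m1.integrableOn ?_).trans ?_
    · rw [ae_restrict_iff' measurableSet_ball]
      exact ae_of_all _ fun ζ hζ => h.maj_le hz hζ
    · refine (setIntegral_le_integral m1 (ae_of_all _ fun ζ => ?_)).trans m2
      unfold maj
      have hom := om_pos h0 h2.le
      have hn1 : 0 ≤ (Ioc 0 (‖1 - z‖ / 2)).indicator (fun r => 1 / r) ‖ζ - z‖ := by
        apply indicator_nonneg
        intro r hr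
        have := hr.1
        positivity
      have hn2 : 0 ≤ (Ioo (‖1 - z‖ / 2) 2).indicator (fun r => r⁻¹ / r) ‖ζ - z‖ := by
        apply indicator_nonneg
        intro r hr
        have := hr.1
        have : 0 < r := by linarith
        positivity
      have hn3 : 0 ≤ (Ioo 0 ‖1 - z‖).indicator (fun r => (r / ‖1 - z‖ ^ 2) / r) ‖ζ - 1‖ := by
        apply indicator_nonneg
        intro r hr
        have := hr.1
        positivity
      have hn4 : 0 ≤ (Ico ‖1 - z‖ 2).indicator (fun r => (om r / r) / r) ‖ζ - 1‖ := by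
        apply indicator_nonneg
        intro r hr
        have h3 : 0 < r := by linarith [hr.1]
        have := om_pos h3 hr.2.le
        positivity
      simp only [Pi.zero_apply]
      positivity
  have e4 : ‖RR L H K J z * Real.pi‖ ≤ 16 * A * B * Real.pi := by
    rw [norm_mul, Complex.norm_real, Real.norm_of_nonneg hpi.le]
    gcongr
    exact hRb z hz
  refine (norm_add_le _ _).trans ?_
  nlinarith

end

end Pool.Agent.Helper89.BX
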