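import Pool.Agent.Helper89.BX.Geo

/-! # The remainder `Λ(conj z) H(z) - K(z) - J(conj z)` -/

set_option autoImplicit false

namespace Pool.Agent.Helper89.BX

open Metric Set Filter Topology MeasureTheory Complex
open scoped ComplexConjugate

/-- the data of the construction -/
structure Dat (L H K J : ℂ → ℂ) (A B : ℝ) : Prop where
  A0 : 0 ≤ A
  B0 : 0 ≤ B
  dL : ∀ z ∈ DD, DifferentiableAt ℂ L z
  dH : ∀ z ∈ DD, DifferentiableAt ℂ H z
  dK : ∀ z ∈ DD, HasDerivAt K (L z * deriv H z) z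
  dJ : ∀ z ∈ DD, HasDerivAt J (deriv L z * H z) z
  sum : ∀ z ∈ DD, K z + J z = L z * H z
  bL : ∀ z ∈ DD, ‖deriv L z‖ ≤ A * om ‖1 - z‖ / ‖1 - z‖
  bH : ∀ z ∈ DD, ‖deriv H z‖ ≤ B / ‖1 - z‖

/-- the remainder -/
noncomputable def RR (L H K J : ℂ → ℂ) (z : ℂ) : ℂ := L (conj z) * H z - K z - J (conj z)

section

variable {L H K J : ℂ → ℂ} {A B : ℝ}

lemma Dat.diffL (h : Dat L H K J A B) {z : ℂ} (hz : z ∈ DD) :
    ‖L (conj z) - L z‖ ≤ 4 * A * om ‖1 - z‖ := by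
  have hz' := conj_mem hz
  have h0 := one_sub_pos hz
  have h1 := arc_bound hz h.dL (M := A * om ‖1 - z‖ / ‖1 - z‖) (by
    intro t ht he
    have := h.bL t ht
    rwa [he] at this)
  have h2 := arc_bound hz' h.dL (M := A * om ‖1 - z‖ / ‖1 - z‖) (by
    intro t ht he
    have := h.bL t ht
    rw [norm_one_sub_conj] at he
    rwa [he] at this)
  rw [norm_one_sub_conj] at h2
  have h5 : 2 * ‖1 - z‖ * (A * om ‖1 - z‖ / ‖1 - z‖) = 2 * A * om ‖1 - z‖ := by
    field_simp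
  rw [h5] at h1 h2
  have h6 : L (conj z) - L z = (L (conj z) - L ((1 - ‖1 - z‖ : ℝ) : ℂ)) -
      (L z - L ((1 - ‖1 - z‖ : ℝ) : ℂ)) := by ring
  rw [h6]
  refine (norm_sub_le _ _).trans ?_
  linarith

lemma Dat.diffH (h : Dat L H K J A B) {z : ℂ} (hz : z ∈ DD) :
    ‖H z - H (conj z)‖ ≤ 4 * B := by
  have hz' := conj_mem hz
  have h0 := one_sub_pos hz
  have h1 := arc_bound hz h.dH (M := B / ‖1 - z‖) (by
    intro t ht he
    have := h.bH t ht
    rwa [he] at this)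
  have h2 := arc_bound hz' h.dH (M := B / ‖1 - z‖) (by
    intro t ht he
    have := h.bH t ht
    rw [norm_one_sub_conj] at he
    rwa [he] at this)
  rw [norm_one_sub_conj] at h2
  have h5 : 2 * ‖1 - z‖ * (B / ‖1 - z‖) = 2 * B := by
    field_simp
  rw [h5] at h1 h2
  have h6 : H z - H (conj z) = (H z - H ((1 - ‖1 - z‖ : ℝ) : ℂ)) -
      (H (conj z) - H ((1 - ‖1 - z‖ : ℝ) : ℂ)) := by ring
  rw [h6]
  refine (norm_sub_le _ _).trans ?_
  linarith

/-- the derivative along a curve -/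
noncomputable def RD (L H : ℂ → ℂ) (z w : ℂ) : ℂ :=
  w * (deriv H z * (L (conj z) - L z)) + conj w * (deriv L (conj z) * (H z - H (conj z)))

lemma Dat.curve (h : Dat L H K J A B) {γ : ℝ → ℂ} {w : ℂ} {t : ℝ} (hγ : HasDerivAt γ w t)
    (ht : γ t ∈ DD) : HasDerivAt (fun s => RR L H K J (γ s)) (RD L H (γ t) w) t := by
  have ht' := conj_mem ht
  have hc : HasDerivAt (fun s => conj (γ s)) (conj w) t := by
    have := (Complex.conjCLE.hasFDerivAt (x := γ t)).comp_hasDerivAt t hγ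
    exact this
  have h1 := ((h.dL _ ht').hasDerivAt).comp t hc
  have h2 := ((h.dH _ ht).hasDerivAt).comp t hγ
  have h3 := (h.dK _ ht).comp t hγ
  have h4 := (h.dJ _ ht').comp t hc
  have h5 := ((h1.mul h2).sub h3).sub h4
  have e : RD L H (γ t) w = deriv L (conj (γ t)) * conj w * H (γ t) +
      L (conj (γ t)) * (deriv H (γ t) * w) - L (γ t) * deriv H (γ t) * w -
      deriv L (conj (γ t)) * H (conj (γ t)) * conj w := by
    unfold RD
    ring
  rw [e]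
  exact h5

lemma Dat.RD_le (h : Dat L H K J A B) {z w : ℂ} (hz : z ∈ DD) :
    ‖RD L H z w‖ ≤ 8 * A * B * ‖w‖ * om ‖1 - z‖ / ‖1 - z‖ := by
  have h0 := one_sub_pos hz
  have h1 := h.diffL hz
  have h2 := h.diffH hz
  have h3 := h.bH z hz
  have h4 := h.bL _ (conj_mem hz)
  rw [norm_one_sub_conj] at h4
  have hA := h.A0
  have hB := h.B0
  have hom := om_pos h0 (one_sub_lt hz).le
  unfold RD
  refine (norm_add_le _ _).trans ?_
  rw [norm_mul, norm_mul, norm_mul, norm_mul, Complex.norm_conj]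
  calc ‖w‖ * (‖deriv H z‖ * ‖L (conj z) - L z‖) + ‖w‖ * (‖deriv L (conj z)‖ * ‖H z - H (conj z)‖)
      ≤ ‖w‖ * (B / ‖1 - z‖ * (4 * A * om ‖1 - z‖)) +
        ‖w‖ * (A * om ‖1 - z‖ / ‖1 - z‖ * (4 * B)) := by gcongr
    _ = 8 * A * B * ‖w‖ * om ‖1 - z‖ / ‖1 - z‖ := by ring

lemma Dat.RR_real (h : Dat L H K J A B) {x : ℝ} (hx : (x : ℂ) ∈ DD) : RR L H K J (x : ℂ) = 0 := by
  unfold RR
  rw [Complex.conj_ofReal, ← h.sum _ hx]
  ring

lemma Dat.RR_le (h : Dat L H K J A B) {z : ℂ} (hz : z ∈ DD) :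
    ‖RR L H K J z‖ ≤ 16 * A * B * om ‖1 - z‖ := by
  have hA := h.A0
  have hB := h.B0
  have h0 := one_sub_pos hz
  have hom := om_pos h0 (one_sub_lt hz).le
  have h1 : ∀ t ∈ Icc (0 : ℝ) 1, HasDerivWithinAt (fun t => RR L H K J (arc z t))
      (RD L H (arc z t) (-((‖1 - z‖ : ℂ) * (exp ((t * arg (1 - z) : ℝ) * I) * (arg (1 - z) * I)))))
      (Icc 0 1) t := by
    intro t ht
    exact (h.curve (arc_deriv z t) (arc_mem hz ht.1 ht.2)).hasDerivWithinAt
  have h2 : ∀ t ∈ Ico (0 : ℝ) 1, ‖RD L H (arc z t)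
      (-((‖1 - z‖ : ℂ) * (exp ((t * arg (1 - z) : ℝ) * I) * (arg (1 - z) * I))))‖ ≤
      16 * A * B * om ‖1 - z‖ := by
    intro t ht
    refine (h.RD_le (arc_mem hz ht.1 ht.2.le)).trans ?_
    rw [arc_norm]
    have h3 := arc_deriv_norm hz t
    calc _ ≤ 8 * A * B * (2 * ‖1 - z‖) * om ‖1 - z‖ / ‖1 - z‖ := by gcongr
      _ = 16 * A * B * om ‖1 - z‖ := by field_simp; ring
  have h3 := norm_image_sub_le_of_norm_deriv_le_segment_01' h1 h2
  rw [arc_one, arc_zero, h.RR_real (real_mem h0 (one_sub_lt hz)), sub_zero] at h3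
  exact h3

lemma Dat.RR_lip (h : Dat L H K J A B) {z ζ : ℂ} (hz : z ∈ DD) (hζ : ζ ∈ DD)
    (hd : ‖ζ - z‖ ≤ ‖1 - z‖ / 2) :
    ‖RR L H K J ζ - RR L H K J z‖ ≤ 48 * A * B * om ‖1 - z‖ / ‖1 - z‖ * ‖ζ - z‖ := by
  have hA := h.A0
  have hB := h.B0
  have h0 := one_sub_pos hz
  have h20 := one_sub_lt hz
  have hom := om_pos h0 h20.le
  have hmem : ∀ t ∈ Icc (0 : ℝ) 1, z + t * (ζ - z) ∈ DD := by
    intro t ht
    have hc := (convex_ball (0 : ℂ) 1).segment_subset hz hζ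
    apply hc
    rw [segment_eq_image']
    exact ⟨t, ht, by simp⟩
  have hline : ∀ t : ℝ, HasDerivAt (fun t : ℝ => z + (t : ℂ) * (ζ - z)) (ζ - z) t := by
    intro t
    have h1 : HasDerivAt (fun t : ℝ => (t : ℂ)) 1 t := Complex.ofRealCLM.hasDerivAt
    simpa using (h1.mul_const (ζ - z)).const_add z
  have h1 : ∀ t ∈ Icc (0 : ℝ) 1, HasDerivWithinAt (fun t : ℝ => RR L H K J (z + (t : ℂ) * (ζ - z)))
      (RD L H (z + (t : ℂ) * (ζ - z)) (ζ - z)) (Icc 0 1) t := by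
    intro t ht
    exact (h.curve (hline t) (hmem t ht)).hasDerivWithinAt
  have h2 : ∀ t ∈ Ico (0 : ℝ) 1, ‖RD L H (z + (t : ℂ) * (ζ - z)) (ζ - z)‖ ≤
      48 * A * B * om ‖1 - z‖ / ‖1 - z‖ * ‖ζ - z‖ := by
    intro t ht
    have hm := hmem t ⟨ht.1, ht.2.le⟩
    refine (h.RD_le hm).trans ?_
    obtain ⟨r, hr⟩ : ∃ r, r = ‖1 - (z + (t : ℂ) * (ζ - z))‖ := ⟨_, rfl⟩
    have hr0 := one_sub_pos hm
    have hr2 := one_sub_lt hm
    rw [← hr] at hr0 hr2 ⊢
    have h3 : ‖(t : ℂ) * (ζ - z)‖ ≤ ‖1 - z‖ / 2 := by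
      rw [norm_mul, Complex.norm_real, Real.norm_of_nonneg ht.1]
      nlinarith [norm_nonneg (ζ - z), ht.2]
    have h4 : ‖1 - z‖ / 2 ≤ r := by
      have := norm_sub_norm_le (1 - z) ((t : ℂ) * (ζ - z))
      rw [sub_sub, ← hr] at this
      linarith
    have h5 : r ≤ 2 * ‖1 - z‖ := by
      have := norm_sub_le (1 - z) ((t : ℂ) * (ζ - z))
      rw [sub_sub, ← hr] at this
      linarith
    have h6 : om r ≤ 3 * om ‖1 - z‖ := by
      rcases om_double h0 hr2.le h5 with h7 | h7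
      · exact h7
      · have := om_mono hr0 h7.le h20.le
        linarith
    calc 8 * A * B * ‖ζ - z‖ * om r / r ≤ 8 * A * B * ‖ζ - z‖ * (3 * om ‖1 - z‖) / (‖1 - z‖ / 2) := by
          gcongr
      _ = _ := by field_simp; ring
  have h3 := norm_image_sub_le_of_norm_deriv_le_segment_01' h1 h2
  simpa using h3

lemma Dat.RR_cont (h : Dat L H K J A B) : ContinuousOn (RR L H K J) DD := by
  unfold RR
  have h1 : ContinuousOn (fun z => conj z) DD := Complex.continuous_conj.continuousOn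
  have hm : MapsTo (fun z => conj z) DD DD := fun z hz => conj_mem hz
  have hL : ContinuousOn L DD := fun z hz => (h.dL z hz).continuousAt.continuousWithinAt
  have hH : ContinuousOn H DD := fun z hz => (h.dH z hz).continuousAt.continuousWithinAt
  have hK : ContinuousOn K DD := fun z hz => (h.dK z hz).continuousAt.continuousWithinAt
  have hJ : ContinuousOn J DD := fun z hz => (h.dJ z hz).continuousAt.continuousWithinAt
  exact (((hL.comp h1 hm).mul hH).sub hK).sub (hJ.comp h1 hm)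

end

end Pool.Agent.Helper89.BX
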